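import Mathlib

set_option autoImplicit false

namespace Pool.Agent.H60.Coh

open Matrix

theorem lower_aux {N n : ℕ} {r : ℝ} (M : ℕ) (hM : M ≤ N)
    (L : Submodule ℝ (Fin N → ℝ)) (hL : Module.finrank ℝ L ≤ n)
    (h : ∀ x : Fin N → ℝ, ∑ i, |x i| ≤ 1 → ∃ y ∈ L, ‖x - y‖ ≤ r) :
    (M : ℝ) - n ≤ (M : ℝ)^2 * r^2 := by
  classical
  have hr : 0 ≤ r := by
    obtain ⟨y, _, hy⟩ := h 0 (by simp)
    exact le_trans (norm_nonneg _) hy
  let ρ : (Fin N → ℝ) →ₗ[ℝ] EuclideanSpace ℝ (Fin M) :=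
    (WithLp.linearEquiv 2 ℝ (Fin M → ℝ)).symm.toLinearMap ∘ₗ LinearMap.funLeft ℝ ℝ (Fin.castLE hM)
  have hρ : ∀ (y : Fin N → ℝ) (j : Fin M), (ρ y) j = y (Fin.castLE hM j) := fun y j => rfl
  let L0 : Submodule ℝ (EuclideanSpace ℝ (Fin M)) := L.map ρ
  have hL0 : Module.finrank ℝ L0 ≤ n := le_trans (Submodule.finrank_map_le ρ L) hL
  have key : ∀ i : Fin M, ∃ y ∈ L0, ∀ j, |(EuclideanSpace.single i (1:ℝ) - y) j| ≤ r := by
    intro i
    obtain ⟨y, hyL, hy⟩ := h (Pi.single (Fin.castLE hM i) 1) (by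
      rw [Finset.sum_eq_single (Fin.castLE hM i)]
      · simp
      · intro b _ hb
        simp [Pi.single_apply, hb]
      · simp)
    refine ⟨ρ y, Submodule.mem_map_of_mem hyL, fun j => ?_⟩
    have h1 := norm_le_pi_norm ((Pi.single (Fin.castLE hM i) (1:ℝ) : Fin N → ℝ) - y) (Fin.castLE hM j)
    have h2 : (EuclideanSpace.single i (1:ℝ) - ρ y) j
        = ((Pi.single (Fin.castLE hM i) (1:ℝ) : Fin N → ℝ) - y) (Fin.castLE hM j) := by
      rw [PiLp.sub_apply, hρ, Pi.sub_apply]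
      congr 1
      by_cases hij : j = i
      · subst hij; simp
      · have : Fin.castLE hM j ≠ Fin.castLE hM i := fun hh => hij (Fin.castLE_injective hM hh)
        simp [Pi.single_apply, hij, this]
    rw [h2, ← Real.norm_eq_abs]
    exact le_trans h1 hy
  choose y hyL hy using key
  set W := L0ᗮ with hW
  let b := stdOrthonormalBasis ℝ W
  have hdim : Module.finrank ℝ L0 + Module.finrank ℝ W = M := by
    have := Submodule.finrank_add_finrank_orthogonal L0
    rw [finrank_euclideanSpace_fin] at this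
    exact this
  have hon : Orthonormal ℝ (fun l => ((b l : W) : EuclideanSpace ℝ (Fin M))) :=
    b.orthonormal.comp_linearIsometry W.subtypeₗᵢ
  have hin : ∀ (l) (i : Fin M), inner ℝ ((b l : W) : EuclideanSpace ℝ (Fin M))
      (EuclideanSpace.single i (1:ℝ) - y i) = ((b l : W) : EuclideanSpace ℝ (Fin M)) i := by
    intro l i
    rw [inner_sub_right]
    have h0 : inner ℝ ((b l : W) : EuclideanSpace ℝ (Fin M)) (y i) = 0 := by
      rw [real_inner_comm]
      exact (Submodule.mem_orthogonal L0 _).mp (b l).2 _ (hyL i)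
    rw [h0, sub_zero, EuclideanSpace.inner_single_right]
    simp
  have hnorm : ∀ i : Fin M, ‖EuclideanSpace.single i (1:ℝ) - y i‖^2 ≤ M * r^2 := by
    intro i
    rw [EuclideanSpace.norm_sq_eq]
    calc ∑ j, ‖(EuclideanSpace.single i (1:ℝ) - y i) j‖^2 ≤ ∑ _j : Fin M, r^2 := by
          apply Finset.sum_le_sum
          intro j _
          rw [Real.norm_eq_abs]
          exact pow_le_pow_left₀ (abs_nonneg _) (hy i j) 2
      _ = M * r^2 := by simp
  have hbes : ∀ i : Fin M, ∑ l, (((b l : W) : EuclideanSpace ℝ (Fin M)) i)^2 ≤ M * r^2 := by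
    intro i
    have h1 := hon.sum_inner_products_le (EuclideanSpace.single i (1:ℝ) - y i) (s := Finset.univ)
    refine le_trans (le_of_eq ?_) (le_trans h1 (hnorm i))
    apply Finset.sum_congr rfl
    intro l _
    rw [hin l i, Real.norm_eq_abs, sq_abs]
  have hsum : ∑ i : Fin M, ∑ l, (((b l : W) : EuclideanSpace ℝ (Fin M)) i)^2
      = Module.finrank ℝ W := by
    rw [Finset.sum_comm]
    have : ∀ l, ∑ i : Fin M, (((b l : W) : EuclideanSpace ℝ (Fin M)) i)^2 = 1 := by
      intro l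
      have h1 : ‖((b l : W) : EuclideanSpace ℝ (Fin M))‖ = 1 := hon.1 l
      have h2 := EuclideanSpace.norm_sq_eq ((b l : W) : EuclideanSpace ℝ (Fin M))
      rw [h1] at h2
      simp only [Real.norm_eq_abs, sq_abs] at h2
      rw [← h2]; norm_num
    simp [this]
  have hfin : (Module.finrank ℝ W : ℝ) ≤ M^2 * r^2 := by
    rw [← hsum]
    calc ∑ i : Fin M, ∑ l, (((b l : W) : EuclideanSpace ℝ (Fin M)) i)^2
        ≤ ∑ _i : Fin M, (M * r^2 : ℝ) := Finset.sum_le_sum (fun i _ => hbes i)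
      _ = M^2 * r^2 := by simp; ring
  have h3 : (M : ℝ) - n ≤ Module.finrank ℝ W := by
    have h4 : (M : ℝ) = Module.finrank ℝ L0 + Module.finrank ℝ W := by
      exact_mod_cast hdim.symm
    have h5 : (Module.finrank ℝ L0 : ℝ) ≤ n := by exact_mod_cast hL0
    linarith
  exact le_trans h3 hfin

/-- lower bound for the width -/
theorem width_lower {N n : ℕ} (M : ℕ) (hM : M ≤ N) (hM0 : 0 < M) :
    Real.sqrt ((M : ℝ) - n) / M ≤
      sInf {r : ℝ | ∃ L : Submodule ℝ (Fin N → ℝ), Module.finrank ℝ L ≤ n ∧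
          ∀ x : Fin N → ℝ, ∑ i, |x i| ≤ 1 → ∃ y ∈ L, ‖x - y‖ ≤ r} := by
  apply le_csInf
  · refine ⟨1, ⊥, by simp, fun x hx => ⟨0, by simp, ?_⟩⟩
    rw [sub_zero, pi_norm_le_iff_of_nonneg zero_le_one]
    intro i
    rw [Real.norm_eq_abs]
    exact le_trans (Finset.single_le_sum (f := fun i => |x i|) (fun i _ => abs_nonneg _)
      (Finset.mem_univ i)) hx
  · rintro r ⟨L, hL, h⟩
    have hr : 0 ≤ r := by
      obtain ⟨y, _, hy⟩ := h 0 (by simp)
      exact le_trans (norm_nonneg _) hy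
    have h1 := lower_aux M hM L hL h
    have hMp : (0:ℝ) < M := by exact_mod_cast hM0
    rw [div_le_iff₀ hMp]
    apply Real.sqrt_le_iff.mpr
    constructor
    · positivity
    · calc (M:ℝ) - n ≤ (M : ℝ)^2 * r^2 := h1
        _ = (r * M)^2 := by ring

end Pool.Agent.H60.Coh
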