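import Mathlib

set_option autoImplicit false

namespace Pool.Agent.H60.Coh

open Matrix

/-- vectors lying in a subspace of dimension at most n can be realised in ℝⁿ. -/
theorem realise {ι : Type*} {d : ℕ} (n : ℕ) (U : Submodule ℝ (EuclideanSpace ℝ (Fin d)))
    (hU : Module.finrank ℝ U ≤ n) (F : ι → EuclideanSpace ℝ (Fin d)) (hF : ∀ i, F i ∈ U) :
    ∃ Φ : ι → EuclideanSpace ℝ (Fin n), ∀ i j, inner ℝ (Φ i) (Φ j) = inner ℝ (F i) (F j) := by
  classical
  let b := stdOrthonormalBasis ℝ U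
  let v : Fin (Module.finrank ℝ U) → EuclideanSpace ℝ (Fin n) :=
    fun l => EuclideanSpace.basisFun (Fin n) ℝ (Fin.castLE hU l)
  have hv : Orthonormal ℝ v :=
    (EuclideanSpace.basisFun (Fin n) ℝ).orthonormal.comp (Fin.castLE hU) (Fin.castLE_injective hU)
  refine ⟨fun i => ∑ l, (inner ℝ (b l) (⟨F i, hF i⟩ : U)) • v l, fun i j => ?_⟩
  rw [hv.inner_sum]
  have h1 := b.sum_inner_mul_inner (⟨F i, hF i⟩ : U) (⟨F j, hF j⟩ : U)
  have h2 : inner ℝ (⟨F i, hF i⟩ : U) (⟨F j, hF j⟩ : U) = inner ℝ (F i) (F j) := rfl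
  rw [← h2, ← h1]
  apply Finset.sum_congr rfl
  intro l _
  simp only [conj_trivial]
  rw [real_inner_comm (⟨F i, hF i⟩ : U) (b l)]

theorem vectors_of_matrix {ι : Type*} [Fintype ι] {N : ℕ} (n : ℕ)
    (hn : N ≤ n + Fintype.card ι)
    (E : Matrix (Fin N) (Fin N) ℝ) (hsym : Eᵀ = E) (hE : E * (E * E) = E)
    (q : (ι → ℝ) →ₗ[ℝ] (Fin N → ℝ)) (hq : Function.Injective q)
    (hEq : ∀ u, E *ᵥ q u = q u) :
    ∃ Φ : Fin N → EuclideanSpace ℝ (Fin n), ∀ i j, inner ℝ (Φ i) (Φ j) = (1 - E) i j := by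
  classical
  obtain ⟨a, ha⟩ : ∃ a : ℝ, a * a = 1 / 2 :=
    ⟨Real.sqrt (1/2), Real.mul_self_sqrt (by norm_num)⟩
  set E2 := E * E with hE2
  have e1 : E * E2 = E := hE
  have e2 : E2 * E = E := by rw [hE2, Matrix.mul_assoc]; exact hE
  have e3 : E2 * E2 = E2 := by
    rw [hE2, Matrix.mul_assoc, ← hE2, e1]
  set T : Matrix (Fin N) (Fin N) ℝ := 1 - a • E - (1 - a) • E2 with hT
  have hTT : T * T = 1 - E := by
    have : T * T = 1 - a • E - (1-a) • E2 - a • E + (a*a) • E2 + (a*(1-a)) • E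
        - (1-a) • E2 + ((1-a)*a) • E + ((1-a)*(1-a)) • E2 := by
      rw [hT]
      simp only [sub_mul, mul_sub, one_mul, mul_one, smul_mul_assoc, mul_smul_comm, e1, e2, e3,
        ← hE2, smul_smul, smul_sub]
      abel
    rw [this]
    ext i j
    simp only [Matrix.sub_apply, Matrix.add_apply, Matrix.smul_apply, smul_eq_mul]
    linear_combination (2 * E2 i j - 2 * E i j) * ha
  have hTsym : Tᵀ = T := by
    rw [hT]
    simp only [transpose_sub, transpose_smul, transpose_one, hE2, transpose_mul, hsym]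
  have hTq : ∀ u, T *ᵥ q u = 0 := by
    intro u
    rw [hT, sub_mulVec, sub_mulVec, smul_mulVec, smul_mulVec, one_mulVec, hE2,
      ← mulVec_mulVec, hEq, hEq]
    module
  let w : (ι → ℝ) →ₗ[ℝ] EuclideanSpace ℝ (Fin N) :=
    (WithLp.linearEquiv 2 ℝ (Fin N → ℝ)).symm.toLinearMap ∘ₗ q
  have hw : Function.Injective w := (WithLp.linearEquiv 2 ℝ (Fin N → ℝ)).symm.injective.comp hq
  have hfr : Module.finrank ℝ (LinearMap.range w) = Fintype.card ι := by
    rw [LinearMap.finrank_range_of_inj hw, Module.finrank_fintype_fun_eq_card]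
  have hU : Module.finrank ℝ (LinearMap.range w)ᗮ ≤ n := by
    have := Submodule.finrank_add_finrank_orthogonal (LinearMap.range w)
    rw [finrank_euclideanSpace_fin, hfr] at this
    omega
  obtain ⟨Φ, hΦ⟩ := realise n (LinearMap.range w)ᗮ hU (fun i => WithLp.toLp 2 (T i)) (by
    intro i
    rw [Submodule.mem_orthogonal]
    rintro _ ⟨u, rfl⟩
    have h1 : (T *ᵥ q u) i = 0 := by rw [hTq]; rfl
    rw [mulVec, dotProduct] at h1
    rw [← h1, PiLp.inner_apply]
    apply Finset.sum_congr rfl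
    intro k _
    rfl)
  refine ⟨Φ, fun i j => ?_⟩
  rw [hΦ, ← hTT]
  nth_rewrite 2 [← hTsym]
  rw [mul_apply, PiLp.inner_apply]
  apply Finset.sum_congr rfl
  intro k _
  simp [transpose_apply, mul_comm]

/-- Sylvester's Hadamard matrix -/
noncomputable def Hd (r : ℕ) : Matrix (Fin r → Bool) (Fin r → Bool) ℝ :=
  fun s t => ∏ i, (if (s i && t i) = true then (-1:ℝ) else 1)

theorem Hd_symm (r : ℕ) : (Hd r)ᵀ = Hd r := by
  ext s t
  simp only [transpose_apply, Hd]
  apply Finset.prod_congr rfl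
  intro i _
  rw [Bool.and_comm]

theorem Hd_abs (r : ℕ) (s t : Fin r → Bool) : |Hd r s t| = 1 := by
  rw [Hd, Finset.abs_prod]
  apply Finset.prod_eq_one
  intro i _
  split_ifs <;> simp

theorem Hd_mul (r : ℕ) : Hd r * Hd r = (2^r : ℝ) • (1 : Matrix (Fin r → Bool) (Fin r → Bool) ℝ) := by
  ext s t
  rw [mul_apply]
  have h1 : ∀ x : Fin r → Bool, Hd r s x * Hd r x t
      = ∏ i, ((if (s i && x i) = true then (-1:ℝ) else 1) * (if (x i && t i) = true then (-1:ℝ) else 1)) := by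
    intro x
    rw [Hd, Hd, Finset.prod_mul_distrib]
  simp_rw [h1]
  have h2 := Finset.prod_univ_sum (fun _ : Fin r => (Finset.univ : Finset Bool))
    (fun i b => ((if (s i && b) = true then (-1:ℝ) else 1) * (if (b && t i) = true then (-1:ℝ) else 1)))
  rw [Fintype.piFinset_univ] at h2
  rw [← h2]
  have h3 : ∀ i : Fin r, (∑ b : Bool, ((if (s i && b) = true then (-1:ℝ) else 1) * (if (b && t i) = true then (-1:ℝ) else 1)))
      = if s i = t i then 2 else 0 := by
    intro i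
    rw [Fintype.sum_bool]
    cases s i <;> cases t i <;> norm_num
  simp_rw [h3]
  rw [Matrix.smul_apply, Matrix.one_apply]
  by_cases hst : s = t
  · subst hst
    simp
  · rw [if_neg hst]
    obtain ⟨i, hi⟩ := Function.ne_iff.mp hst
    rw [Finset.prod_eq_zero (Finset.mem_univ i) (by rw [if_neg hi])]
    simp

end Pool.Agent.H60.Coh
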