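import Pool.Agent.H60.CohB

set_option autoImplicit false

namespace Pool.Agent.H60.Coh

open Matrix

theorem exists_blocks {B : Type*} [Fintype B] [DecidableEq B] (N M0 : ℕ)
    (hB : 0 < Fintype.card B) (h : Fintype.card B * M0 ≤ N) :
    ∃ β : Fin N → B, ∀ b, M0 ≤ (Finset.univ.filter (fun i => β i = b)).card := by
  classical
  let e := Fintype.equivFin B
  refine ⟨fun i => e.symm ⟨i.1 % Fintype.card B, Nat.mod_lt _ hB⟩, fun b => ?_⟩
  have hlt : ∀ j : Fin M0, (e b).1 + Fintype.card B * j.1 < N := by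
    intro j
    have h1 : (e b).1 < Fintype.card B := (e b).2
    have h2 : Fintype.card B * (j.1 + 1) ≤ Fintype.card B * M0 := Nat.mul_le_mul_left _ j.2
    nlinarith
  have := Finset.card_le_card_of_injOn (s := (Finset.univ : Finset (Fin M0)))
    (t := Finset.univ.filter (fun i : Fin N => e.symm ⟨i.1 % Fintype.card B, Nat.mod_lt _ hB⟩ = b))
    (fun j => (⟨(e b).1 + Fintype.card B * j.1, hlt j⟩ : Fin N)) (by
      intro j _
      simp only [Finset.coe_filter, Finset.mem_univ, true_and, Set.mem_ofPred_eq]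
      rw [Equiv.symm_apply_eq]
      apply Fin.ext
      simp only [Nat.add_mul_mod_self_left]
      exact Nat.mod_eq_of_lt (e b).2) (by
      intro j _ j' _ hjj
      have h3 := congrArg Fin.val hjj
      simp only at h3
      apply Fin.ext
      have h4 : Fintype.card B * j.1 = Fintype.card B * j'.1 := by omega
      exact Nat.eq_of_mul_eq_mul_left hB h4)
  simpa using this

theorem block_vectors (r N n M0 : ℕ) (hM0 : 0 < M0) (h1 : 2 * 2^r * M0 ≤ N)
    (h2 : N ≤ n + 2^r) :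
    ∃ Φ : Fin N → EuclideanSpace ℝ (Fin n), (∀ i, ‖Φ i‖ = 1) ∧
      ∀ i j, i ≠ j → |inner ℝ (Φ i) (Φ j)| ≤ 1 / (Real.sqrt (2^r) * M0) := by
  classical
  set ι := Fin r → Bool with hι
  have hcard : Fintype.card ι = 2^r := by simp [hι]
  have hcardB : Fintype.card (ι ⊕ ι) = 2 * 2^r := by rw [Fintype.card_sum, hcard]; ring
  obtain ⟨β, hβ⟩ := exists_blocks (B := ι ⊕ ι) N M0 (by rw [hcardB]; positivity)
    (by rw [hcardB]; exact h1)
  let m : (ι ⊕ ι) → ℝ := fun b => ((Finset.univ.filter (fun i => β i = b)).card : ℝ)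
  have hm : ∀ b, (M0 : ℝ) ≤ m b := fun b => Nat.cast_le.mpr (hβ b)
  have hM0' : (0:ℝ) < M0 := by exact_mod_cast hM0
  have hmpos : ∀ b, 0 < m b := fun b => lt_of_lt_of_le hM0' (hm b)
  obtain ⟨V, hV⟩ : ∃ V : Matrix (Fin N) (ι ⊕ ι) ℝ,
      ∀ i b, V i b = if β i = b then (Real.sqrt (m b))⁻¹ else 0 := ⟨Matrix.of _, fun _ _ => rfl⟩
  have hVV : Vᵀ * V = 1 := by
    ext b b'
    rw [mul_apply]
    simp only [transpose_apply, hV]
    by_cases hb : b = b'
    · subst hb
      rw [Matrix.one_apply_eq]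
      have : ∀ i : Fin N, ((if β i = b then (Real.sqrt (m b))⁻¹ else 0) *
          (if β i = b then (Real.sqrt (m b))⁻¹ else 0)) = if β i = b then (m b)⁻¹ else 0 := by
        intro i
        split_ifs
        · rw [← mul_inv, Real.mul_self_sqrt (hmpos b).le]
        · simp
      simp_rw [this]
      rw [← Finset.sum_filter, Finset.sum_const, nsmul_eq_mul]
      exact mul_inv_cancel₀ (hmpos b).ne'
    · rw [Matrix.one_apply_ne hb]
      apply Finset.sum_eq_zero
      intro i _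
      by_cases h : β i = b
      · have : ¬ β i = b' := fun h' => hb (h.symm.trans h')
        simp [this]
      · simp [h]
  set c : ℝ := (Real.sqrt (2^r))⁻¹ with hc
  have hs : (0:ℝ) < Real.sqrt (2^r) := Real.sqrt_pos.mpr (by positivity)
  have hcpos : 0 < c := inv_pos.mpr hs
  have hcc : c * c * 2^r = 1 := by
    rw [hc, ← mul_inv, Real.mul_self_sqrt (by positivity)]
    exact inv_mul_cancel₀ (by positivity)
  have hHH : (c • Hd r) * (c • Hd r) = 1 := by
    rw [smul_mul_assoc, mul_smul_comm, Hd_mul, smul_smul, smul_smul, hcc, one_smul]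
  obtain ⟨Q, hQdef⟩ : ∃ Q : Matrix (ι ⊕ ι) (ι ⊕ ι) ℝ,
      Q = fromBlocks 0 (c • Hd r) (c • Hd r) 0 := ⟨_, rfl⟩
  have hQQ : Q * Q = 1 := by
    rw [hQdef, fromBlocks_multiply, hHH]
    simp
  have hQsym : Qᵀ = Q := by
    rw [hQdef, fromBlocks_transpose, transpose_smul, Hd_symm]
    simp
  have hQabs : ∀ b b', |Q b b'| ≤ c := by
    intro b b'
    rcases b with s | s <;> rcases b' with t | t
    · simp [hQdef, hcpos.le]
    · simp only [hQdef, fromBlocks_apply₁₂, Matrix.smul_apply, smul_eq_mul, abs_mul, Hd_abs, mul_one,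
        abs_of_pos hcpos, le_refl]
    · simp only [hQdef, fromBlocks_apply₂₁, Matrix.smul_apply, smul_eq_mul, abs_mul, Hd_abs, mul_one,
        abs_of_pos hcpos, le_refl]
    · simp [hQdef, hcpos.le]
  have hQdiag : ∀ b, Q b b = 0 := by
    intro b
    rcases b with s | s <;> simp [hQdef]
  obtain ⟨E, hEdef⟩ : ∃ E : Matrix (Fin N) (Fin N) ℝ, E = V * (Q * Vᵀ) := ⟨_, rfl⟩
  have hEsym : Eᵀ = E := by
    rw [hEdef, transpose_mul, transpose_mul, transpose_transpose, hQsym, Matrix.mul_assoc]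
  have hE3 : E * (E * E) = E := by
    have a1 : E * E = V * Vᵀ := by
      calc E * E = V * (Q * ((Vᵀ * V) * (Q * Vᵀ))) := by
            simp only [hEdef, Matrix.mul_assoc]
        _ = V * ((Q * Q) * Vᵀ) := by rw [hVV, Matrix.one_mul, Matrix.mul_assoc]
        _ = V * Vᵀ := by rw [hQQ, Matrix.one_mul]
    rw [a1]
    calc E * (V * Vᵀ) = V * (Q * ((Vᵀ * V) * Vᵀ)) := by simp only [hEdef, Matrix.mul_assoc]
      _ = E := by rw [hVV, Matrix.one_mul, hEdef]
  have hEij : ∀ i j, E i j = (Real.sqrt (m (β i)))⁻¹ * (Q (β i) (β j) * (Real.sqrt (m (β j)))⁻¹) := by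
    intro i j
    rw [hEdef, mul_apply]
    have : ∀ b, (Q * Vᵀ) b j = Q b (β j) * (Real.sqrt (m (β j)))⁻¹ := by
      intro b
      rw [mul_apply, Finset.sum_eq_single (β j)]
      · rw [transpose_apply, hV, if_pos rfl]
      · intro b' _ hb'
        rw [transpose_apply, hV, if_neg (fun h => hb' h.symm), mul_zero]
      · intro h
        exact absurd (Finset.mem_univ _) h
    simp_rw [this]
    rw [Finset.sum_eq_single (β i)]
    · rw [hV, if_pos rfl]
    · intro b' _ hb'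
      rw [hV, if_neg (fun h => hb' h.symm), zero_mul]
    · intro h
      exact absurd (Finset.mem_univ _) h
  let g : (ι → ℝ) →ₗ[ℝ] (ι ⊕ ι → ℝ) :=
    { toFun := fun u => Sum.elim u ((c • Hd r) *ᵥ u)
      map_add' := by
        intro u v
        ext b
        rcases b with s | s
        · simp
        · simp [mulVec_add]
      map_smul' := by
        intro a u
        ext b
        rcases b with s | s
        · simp
        · simp [mulVec_smul] }
  let q : (ι → ℝ) →ₗ[ℝ] (Fin N → ℝ) := V.mulVecLin ∘ₗ g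
  have hqval : ∀ u, q u = V *ᵥ (g u) := fun u => rfl
  have hqinj : Function.Injective q := by
    intro u v huv
    rw [hqval, hqval] at huv
    have h3 : Vᵀ *ᵥ (V *ᵥ (g u)) = Vᵀ *ᵥ (V *ᵥ (g v)) := by rw [huv]
    rw [mulVec_mulVec, mulVec_mulVec, hVV, one_mulVec, one_mulVec] at h3
    funext s
    exact congrFun h3 (Sum.inl s)
  have hQg : ∀ u, Q *ᵥ (g u) = g u := by
    intro u
    rw [hQdef]
    simp only [g]
    rw [LinearMap.coe_mk, AddHom.coe_mk, fromBlocks_mulVec]
    simp only [Sum.elim_comp_inl, Sum.elim_comp_inr, zero_mulVec,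
      zero_add, add_zero]
    rw [mulVec_mulVec, hHH, one_mulVec]
  have hEq : ∀ u, E *ᵥ q u = q u := by
    intro u
    rw [hqval, hEdef]
    rw [← mulVec_mulVec, ← mulVec_mulVec, mulVec_mulVec (g u) Vᵀ V, hVV, one_mulVec, hQg]
  obtain ⟨Φ, hΦ⟩ := vectors_of_matrix n (by rw [hcard]; exact h2) E hEsym hE3 q hqinj hEq
  refine ⟨Φ, fun i => ?_, fun i j hij => ?_⟩
  · have h3 : ‖Φ i‖^2 = 1 := by
      rw [← real_inner_self_eq_norm_sq, hΦ, Matrix.sub_apply, Matrix.one_apply_eq, hEij, hQdiag]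
      simp
    nlinarith [norm_nonneg (Φ i)]
  · rw [hΦ, Matrix.sub_apply, Matrix.one_apply_ne hij, zero_sub, abs_neg, hEij, abs_mul, abs_mul,
      abs_of_pos (inv_pos.mpr (Real.sqrt_pos.mpr (hmpos _))),
      abs_of_pos (inv_pos.mpr (Real.sqrt_pos.mpr (hmpos _)))]
    have h4 : ∀ b, (Real.sqrt (m b))⁻¹ ≤ (Real.sqrt M0)⁻¹ := by
      intro b
      apply inv_anti₀ (Real.sqrt_pos.mpr hM0')
      exact Real.sqrt_le_sqrt (hm b)
    have h5 : 0 ≤ (Real.sqrt (M0:ℝ))⁻¹ := inv_nonneg.mpr (Real.sqrt_nonneg _)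
    calc (Real.sqrt (m (β i)))⁻¹ * (|Q (β i) (β j)| * (Real.sqrt (m (β j)))⁻¹)
        ≤ (Real.sqrt (M0:ℝ))⁻¹ * (c * (Real.sqrt (M0:ℝ))⁻¹) := by
          apply mul_le_mul (h4 _) _ _ h5
          · apply mul_le_mul (hQabs _ _) (h4 _) _ hcpos.le
            exact inv_nonneg.mpr (Real.sqrt_nonneg _)
          · exact mul_nonneg (abs_nonneg _) (inv_nonneg.mpr (Real.sqrt_nonneg _))
      _ = c * ((Real.sqrt (M0:ℝ)) * (Real.sqrt (M0:ℝ)))⁻¹ := by rw [mul_inv]; ring
      _ = 1 / (Real.sqrt (2^r) * M0) := by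
          rw [Real.mul_self_sqrt hM0'.le, hc, one_div, mul_inv]

end Pool.Agent.H60.Coh
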