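import Mathlib

set_option autoImplicit false

namespace Pool.Agent.H60.Coh

open Matrix

theorem realise' {ι : Type*} {G : Type*} [NormedAddCommGroup G] [InnerProductSpace ℝ G]
    [FiniteDimensional ℝ G] (n : ℕ)
    (hU : Module.finrank ℝ G ≤ n) (F : ι → G) :
    ∃ Φ : ι → EuclideanSpace ℝ (Fin n), ∀ i j, inner ℝ (Φ i) (Φ j) = inner ℝ (F i) (F j) := by
  classical
  let b := stdOrthonormalBasis ℝ G
  let v : Fin (Module.finrank ℝ G) → EuclideanSpace ℝ (Fin n) :=
    fun l => EuclideanSpace.basisFun (Fin n) ℝ (Fin.castLE hU l)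
  have hv : Orthonormal ℝ v :=
    (EuclideanSpace.basisFun (Fin n) ℝ).orthonormal.comp (Fin.castLE hU) (Fin.castLE_injective hU)
  refine ⟨fun i => ∑ l, (inner ℝ (b l) (F i)) • v l, fun i j => ?_⟩
  rw [hv.inner_sum]
  have h1 := b.sum_inner_mul_inner (F i) (F j)
  rw [← h1]
  apply Finset.sum_congr rfl
  intro l _
  simp only [conj_trivial]
  rw [real_inner_comm (F i) (b l)]

theorem agree_card (p : ℕ) [Fact p.Prime] (K : ℕ) (f g : Polynomial (ZMod p))
    (hf : f.degree < K) (hg : g.degree < K) (hfg : f ≠ g) :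
    (Finset.univ.filter (fun x : ZMod p => f.eval x = g.eval x)).card ≤ K := by
  classical
  have h0 : f - g ≠ 0 := sub_ne_zero.mpr hfg
  have hdeg : (f - g).degree < K := lt_of_le_of_lt (Polynomial.degree_sub_le f g) (max_lt hf hg)
  have hnat : (f - g).natDegree < K := (Polynomial.natDegree_lt_iff_degree_lt h0).mpr hdeg
  have hsub : (Finset.univ.filter (fun x : ZMod p => f.eval x = g.eval x)) ⊆ (f - g).roots.toFinset := by
    intro x hx
    rw [Finset.mem_filter] at hx
    rw [Multiset.mem_toFinset, Polynomial.mem_roots h0, Polynomial.IsRoot.def, Polynomial.eval_sub,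
      hx.2, sub_self]
  calc (Finset.univ.filter (fun x : ZMod p => f.eval x = g.eval x)).card
      ≤ (f - g).roots.toFinset.card := Finset.card_le_card hsub
    _ ≤ Multiset.card (f - g).roots := Multiset.toFinset_card_le _
    _ ≤ (f - g).natDegree := Polynomial.card_roots' _
    _ ≤ K := hnat.le

/-- DeVore's dictionaries -/
theorem devore (p : ℕ) (hp : p.Prime) (K N n : ℕ) (hN : N ≤ p^K) (hn : p^2 ≤ n) :
    ∃ Φ : Fin N → EuclideanSpace ℝ (Fin n), (∀ i, ‖Φ i‖ = 1) ∧
      ∀ i j, i ≠ j → |inner ℝ (Φ i) (Φ j)| ≤ K / p := by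
  classical
  haveI : Fact p.Prime := ⟨hp⟩
  have hp0 : (0:ℝ) < p := by exact_mod_cast hp.pos
  -- injection
  have hcard : Fintype.card (Fin K → ZMod p) = p^K := by
    rw [Fintype.card_fun, ZMod.card, Fintype.card_fin]
  let e0 : (Fin K → ZMod p) ≃ Fin (p^K) := Fintype.equivFinOfCardEq hcard
  let a : Fin N → (Fin K → ZMod p) := fun i => e0.symm (Fin.castLE hN i)
  have ha : Function.Injective a := e0.symm.injective.comp (Fin.castLE_injective hN)
  let f : Fin N → Polynomial (ZMod p) := fun i => (((Polynomial.degreeLTEquiv (ZMod p) K).symm (a i) :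
    Polynomial.degreeLT (ZMod p) K) : Polynomial (ZMod p))
  have hfinj : Function.Injective f := by
    intro i j hij
    exact ha ((Polynomial.degreeLTEquiv (ZMod p) K).symm.injective (Subtype.ext hij))
  have hfdeg : ∀ i, (f i).degree < K := fun i =>
    Polynomial.mem_degreeLT.mp ((Polynomial.degreeLTEquiv (ZMod p) K).symm (a i)).2
  let F : Fin N → EuclideanSpace ℝ (ZMod p × ZMod p) := fun i =>
    WithLp.toLp 2 (fun z => if (f i).eval z.1 = z.2 then (Real.sqrt p)⁻¹ else 0)
  have hfin : Module.finrank ℝ (EuclideanSpace ℝ (ZMod p × ZMod p)) ≤ n := by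
    rw [finrank_euclideanSpace, Fintype.card_prod, ZMod.card]
    calc p * p = p^2 := by ring
      _ ≤ n := hn
  have hin : ∀ i j, inner ℝ (F i) (F j)
      = ((Finset.univ.filter (fun x : ZMod p => (f i).eval x = (f j).eval x)).card : ℝ) / p := by
    intro i j
    rw [PiLp.inner_apply, Fintype.sum_prod_type]
    have : ∀ x : ZMod p, (∑ y : ZMod p, inner ℝ ((F i) (x, y)) ((F j) (x, y)))
        = if (f i).eval x = (f j).eval x then ((p:ℝ))⁻¹ else 0 := by
      intro x
      rw [Finset.sum_eq_single ((f i).eval x)]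
      · simp only [F]
        by_cases h : (f i).eval x = (f j).eval x
        · simp only [h, if_true]
          rw [real_inner_eq_re_inner, RCLike.inner_apply]
          simp only [conj_trivial, RCLike.re_to_real]
          rw [← mul_inv, Real.mul_self_sqrt hp0.le]
        · have h' : ¬ (f j).eval x = (f i).eval x := fun hh => h hh.symm
          simp [h, h']
      · intro y _ hy
        have h' : ¬ (f i).eval x = y := fun hh => hy hh.symm
        simp [F, h']
      · intro h
        exact absurd (Finset.mem_univ _) h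
    simp_rw [this]
    rw [← Finset.sum_filter, Finset.sum_const, nsmul_eq_mul, div_eq_mul_inv]
  obtain ⟨Φ, hΦ⟩ := realise' n hfin F
  refine ⟨Φ, fun i => ?_, fun i j hij => ?_⟩
  · have h3 : ‖Φ i‖^2 = 1 := by
      rw [← real_inner_self_eq_norm_sq, hΦ, hin]
      simp only [Finset.filter_true, Finset.card_univ, ZMod.card]
      exact div_self hp0.ne'
    nlinarith [norm_nonneg (Φ i)]
  · rw [hΦ, hin, abs_of_nonneg (by positivity)]
    have := agree_card p K (f i) (f j) (hfdeg i) (hfdeg j) (fun h => hij (hfinj h))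
    apply div_le_div_of_nonneg_right _ hp0.le
    exact_mod_cast this

end Pool.Agent.H60.Coh
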