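import Mathlib

set_option autoImplicit false

namespace Pool.Agent.H60.Coh

open Matrix

theorem lower_basis {N n : ℕ} {r : ℝ} (M : ℕ) (hM : M ≤ N)
    (L : Submodule ℝ (Fin N → ℝ)) (hL : Module.finrank ℝ L ≤ n)
    (h : ∀ i : Fin N, ∃ y ∈ L, ‖(Pi.single i (1:ℝ) : Fin N → ℝ) - y‖ ≤ r) :
    (M : ℝ) - n ≤ (M : ℝ)^2 * r^2 := by
  classical
  let ρ : (Fin N → ℝ) →ₗ[ℝ] EuclideanSpace ℝ (Fin M) :=
    (WithLp.linearEquiv 2 ℝ (Fin M → ℝ)).symm.toLinearMap ∘ₗ LinearMap.funLeft ℝ ℝ (Fin.castLE hM)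
  have hρ : ∀ (y : Fin N → ℝ) (j : Fin M), (ρ y) j = y (Fin.castLE hM j) := fun y j => rfl
  let L0 : Submodule ℝ (EuclideanSpace ℝ (Fin M)) := L.map ρ
  have hL0 : Module.finrank ℝ L0 ≤ n := le_trans (Submodule.finrank_map_le ρ L) hL
  have key : ∀ i : Fin M, ∃ y ∈ L0, ∀ j, |(EuclideanSpace.single i (1:ℝ) - y) j| ≤ r := by
    intro i
    obtain ⟨y, hyL, hy⟩ := h (Fin.castLE hM i)
    refine ⟨ρ y, Submodule.mem_map_of_mem hyL, fun j => ?_⟩
    have h1 := norm_le_pi_norm ((Pi.single (Fin.castLE hM i) (1:ℝ) : Fin N → ℝ) - y) (Fin.castLE hM j)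
    have h2 : (EuclideanSpace.single i (1:ℝ) - ρ y) j
        = ((Pi.single (Fin.castLE hM i) (1:ℝ) : Fin N → ℝ) - y) (Fin.castLE hM j) := by
      rw [PiLp.sub_apply, hρ, Pi.sub_apply]
      congr 1
      by_cases hij : j = i
      · subst hij; simp
      · have : Fin.castLE hM j ≠ Fin.castLE hM i := fun hh => hij (Fin.castLE_injective hM hh)
        simp [Pi.single_apply, hij, this]
    rw [h2, ← Real.norm_eq_abs]
    exact le_trans h1 hy
  choose y hyL hy using key
  set W := L0ᗮ with hW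
  let b := stdOrthonormalBasis ℝ W
  have hdim : Module.finrank ℝ L0 + Module.finrank ℝ W = M := by
    have := Submodule.finrank_add_finrank_orthogonal L0
    rw [finrank_euclideanSpace_fin] at this
    exact this
  have hon : Orthonormal ℝ (fun l => ((b l : W) : EuclideanSpace ℝ (Fin M))) :=
    b.orthonormal.comp_linearIsometry W.subtypeₗᵢ
  have hin : ∀ (l) (i : Fin M), inner ℝ ((b l : W) : EuclideanSpace ℝ (Fin M))
      (EuclideanSpace.single i (1:ℝ) - y i) = ((b l : W) : EuclideanSpace ℝ (Fin M)) i := by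
    intro l i
    rw [inner_sub_right]
    have h0 : inner ℝ ((b l : W) : EuclideanSpace ℝ (Fin M)) (y i) = 0 := by
      rw [real_inner_comm]
      exact (Submodule.mem_orthogonal L0 _).mp (b l).2 _ (hyL i)
    rw [h0, sub_zero, EuclideanSpace.inner_single_right]
    simp
  have hnorm : ∀ i : Fin M, ‖EuclideanSpace.single i (1:ℝ) - y i‖^2 ≤ M * r^2 := by
    intro i
    rw [EuclideanSpace.norm_sq_eq]
    calc ∑ j, ‖(EuclideanSpace.single i (1:ℝ) - y i) j‖^2 ≤ ∑ _j : Fin M, r^2 := by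
          apply Finset.sum_le_sum
          intro j _
          rw [Real.norm_eq_abs]
          exact pow_le_pow_left₀ (abs_nonneg _) (hy i j) 2
      _ = M * r^2 := by simp
  have hbes : ∀ i : Fin M, ∑ l, (((b l : W) : EuclideanSpace ℝ (Fin M)) i)^2 ≤ M * r^2 := by
    intro i
    have h1 := hon.sum_inner_products_le (EuclideanSpace.single i (1:ℝ) - y i) (s := Finset.univ)
    refine le_trans (le_of_eq ?_) (le_trans h1 (hnorm i))
    apply Finset.sum_congr rfl
    intro l _
    rw [hin l i, Real.norm_eq_abs, sq_abs]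
  have hsum : ∑ i : Fin M, ∑ l, (((b l : W) : EuclideanSpace ℝ (Fin M)) i)^2
      = Module.finrank ℝ W := by
    rw [Finset.sum_comm]
    have : ∀ l, ∑ i : Fin M, (((b l : W) : EuclideanSpace ℝ (Fin M)) i)^2 = 1 := by
      intro l
      have h1 : ‖((b l : W) : EuclideanSpace ℝ (Fin M))‖ = 1 := hon.1 l
      have h2 := EuclideanSpace.norm_sq_eq ((b l : W) : EuclideanSpace ℝ (Fin M))
      rw [h1] at h2
      simp only [Real.norm_eq_abs, sq_abs] at h2
      rw [← h2]; norm_num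
    simp [this]
  have hfin : (Module.finrank ℝ W : ℝ) ≤ M^2 * r^2 := by
    rw [← hsum]
    calc ∑ i : Fin M, ∑ l, (((b l : W) : EuclideanSpace ℝ (Fin M)) i)^2
        ≤ ∑ _i : Fin M, (M * r^2 : ℝ) := Finset.sum_le_sum (fun i _ => hbes i)
      _ = M^2 * r^2 := by simp; ring
  have h3 : (M : ℝ) - n ≤ Module.finrank ℝ W := by
    have h4 : (M : ℝ) = Module.finrank ℝ L0 + Module.finrank ℝ W := by
      exact_mod_cast hdim.symm
    have h5 : (Module.finrank ℝ L0 : ℝ) ≤ n := by exact_mod_cast hL0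
    linarith
  exact le_trans h3 hfin


theorem pow_space {N : ℕ} (L : Submodule ℝ (Fin N → ℝ)) (n k : ℕ)
    (hL : Module.finrank ℝ L ≤ n) :
    ∃ Lk : Submodule ℝ (Fin N → ℝ), Module.finrank ℝ Lk ≤ n.multichoose k ∧
      ∀ a ∈ L, (fun j => a j ^ k) ∈ Lk := by
  classical
  let b := Module.finBasis ℝ L
  let w : Sym (Fin (Module.finrank ℝ L)) k → (Fin N → ℝ) :=
    fun s j => (s.1.map (fun l => ((b l : L) : Fin N → ℝ) j)).prod
  refine ⟨Submodule.span ℝ (Set.range w), ?_, ?_⟩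
  · have h1 := finrank_range_le_card (R := ℝ) w
    rw [Sym.card_sym_eq_multichoose, Fintype.card_fin] at h1
    refine le_trans h1 ?_
    rw [Nat.multichoose_eq, Nat.multichoose_eq]
    exact Nat.choose_le_choose k (by omega)
  · intro a ha
    have h1 : ∀ j, a j = ∑ l, b.repr ⟨a, ha⟩ l * ((b l : L) : Fin N → ℝ) j := by
      intro j
      have h2 := congrArg (fun z : L => ((z : Fin N → ℝ) j)) (b.sum_repr ⟨a, ha⟩)
      simp only [Submodule.coe_sum, Finset.sum_apply, Submodule.coe_smul, Pi.smul_apply,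
        smul_eq_mul] at h2
      exact h2.symm
    have h3 : (fun j => a j ^ k) = ∑ s ∈ (Finset.univ : Finset (Fin (Module.finrank ℝ L))).sym k,
        ((s.1.countPerms : ℝ) * (s.1.map (fun l => b.repr ⟨a, ha⟩ l)).prod) • w s := by
      funext j
      rw [h1 j, Finset.sum_pow, Finset.sum_apply]
      apply Finset.sum_congr rfl
      intro s _
      rw [Multiset.prod_map_mul, Pi.smul_apply, smul_eq_mul, mul_assoc]
    rw [h3]
    apply Submodule.sum_mem
    intro s _
    exact Submodule.smul_mem _ _ (Submodule.subset_span ⟨s, rfl⟩)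

theorem alon {N n k : ℕ} (hk : 1 ≤ k) (hn : 1 ≤ n) (hN : 2 * n.multichoose k ≤ N)
    {r : ℝ} (hr0 : 0 ≤ r) (hr : r < 1/2)
    (L : Submodule ℝ (Fin N → ℝ)) (hL : Module.finrank ℝ L ≤ n)
    (h : ∀ i : Fin N, ∃ y ∈ L, ‖(Pi.single i (1:ℝ) : Fin N → ℝ) - y‖ ≤ r) :
    1 ≤ 4 * (n.multichoose k : ℝ) * ((2*r)^k)^2 := by
  classical
  obtain ⟨Lk, hLk, hpow⟩ := pow_space L n k hL
  have hD : 0 < n.multichoose k := by
    rw [Nat.multichoose_eq]
    exact Nat.choose_pos (by omega)
  have h2 : ∀ i : Fin N, ∃ y ∈ Lk, ‖(Pi.single i (1:ℝ) : Fin N → ℝ) - y‖ ≤ (2*r)^k := by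
    intro i
    obtain ⟨y, hyL, hy⟩ := h i
    have hj : ∀ j, |(Pi.single i (1:ℝ) : Fin N → ℝ) j - y j| ≤ r := by
      intro j
      have := norm_le_pi_norm ((Pi.single i (1:ℝ) : Fin N → ℝ) - y) j
      rw [Real.norm_eq_abs, Pi.sub_apply] at this
      exact le_trans this hy
    have hyi : 1 - r ≤ y i := by
      have := hj i
      rw [Pi.single_eq_same] at this
      linarith [(abs_le.mp this).2]
    have hyi0 : 0 < y i := by linarith
    refine ⟨_, hpow ((y i)⁻¹ • y) (L.smul_mem _ hyL), ?_⟩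
    rw [pi_norm_le_iff_of_nonneg (by positivity)]
    intro j
    rw [Real.norm_eq_abs, Pi.sub_apply]
    by_cases hji : j = i
    · subst hji
      rw [Pi.single_eq_same, Pi.smul_apply, smul_eq_mul, inv_mul_cancel₀ hyi0.ne', one_pow, sub_self,
        abs_zero]
      positivity
    · rw [Pi.single_eq_of_ne hji, zero_sub, abs_neg, abs_pow]
      apply pow_le_pow_left₀ (abs_nonneg _)
      have := hj j
      rw [Pi.single_eq_of_ne hji, zero_sub, abs_neg] at this
      rw [Pi.smul_apply, smul_eq_mul, abs_mul, abs_of_pos (inv_pos.mpr hyi0), inv_mul_le_iff₀ hyi0]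
      nlinarith
  have h3 := lower_basis (2 * n.multichoose k) hN Lk hLk h2
  push_cast at h3
  have hDr : (0:ℝ) < (n.multichoose k : ℝ) := by exact_mod_cast hD
  have h4 : (n.multichoose k : ℝ) * 1 ≤ (n.multichoose k : ℝ) *
      (4 * (n.multichoose k : ℝ) * ((2*r)^k)^2) := by
    nlinarith
  exact le_of_mul_le_mul_left h4 hDr

theorem multichoose_bound {n k : ℕ} (hk : 1 ≤ k) :
    (n.multichoose k : ℝ) ≤ (3 * ((n:ℝ) + k) / k)^k := by
  have hkr : (0:ℝ) < k := by exact_mod_cast hk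
  rw [Nat.multichoose_eq]
  have h1 := Nat.choose_le_pow_div (α := ℝ) k (n + k - 1)
  have h2 : ((n + k - 1 : ℕ) : ℝ) ≤ (n:ℝ) + k := by
    have : n + k - 1 ≤ n + k := Nat.sub_le _ _
    calc ((n + k - 1 : ℕ) : ℝ) ≤ ((n + k : ℕ) : ℝ) := by exact_mod_cast this
      _ = (n:ℝ) + k := by push_cast; ring
  have h3 : (k:ℝ)^k / (k.factorial : ℝ) ≤ 3^k := by
    refine le_trans (Real.pow_div_factorial_le_exp (k:ℝ) hkr.le k) ?_
    have : Real.exp k = (Real.exp 1)^k := by rw [← Real.exp_nat_mul, mul_one]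
    rw [this]
    exact pow_le_pow_left₀ (Real.exp_pos 1).le (by linarith [Real.exp_one_lt_d9]) k
  have hfac : (0:ℝ) < (k.factorial : ℝ) := by exact_mod_cast Nat.factorial_pos k
  calc (((n + k - 1).choose k : ℕ) : ℝ) ≤ ((n + k - 1 : ℕ) : ℝ)^k / (k.factorial : ℝ) := h1
    _ ≤ ((n:ℝ) + k)^k / (k.factorial : ℝ) := by
        apply div_le_div_of_nonneg_right _ hfac.le
        exact pow_le_pow_left₀ (Nat.cast_nonneg _) h2 k
    _ = (((n:ℝ) + k)/k)^k * ((k:ℝ)^k / (k.factorial : ℝ)) := by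
        rw [div_pow]; field_simp
    _ ≤ (((n:ℝ) + k)/k)^k * 3^k := mul_le_mul_of_nonneg_left h3 (by positivity)
    _ = (3 * ((n:ℝ) + k) / k)^k := by rw [← mul_pow]; congr 1; ring

/-- Alon-type lower bound for the width. -/
theorem width_alon {N n k : ℕ} (hk : 1 ≤ k) (hkn : k ≤ n) (hN : 2 * (6 * (n:ℝ) / k)^k ≤ N) :
    Real.sqrt k / (10 * Real.sqrt n) ≤
      sInf {r : ℝ | ∃ L : Submodule ℝ (Fin N → ℝ), Module.finrank ℝ L ≤ n ∧
          ∀ x : Fin N → ℝ, ∑ i, |x i| ≤ 1 → ∃ y ∈ L, ‖x - y‖ ≤ r} := by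
  have hkr : (0:ℝ) < k := by exact_mod_cast hk
  have hknr : (k:ℝ) ≤ n := by exact_mod_cast hkn
  have hnr : (0:ℝ) < n := lt_of_lt_of_le hkr hknr
  apply le_csInf
  · refine ⟨1, ⊥, by simp, fun x hx => ⟨0, by simp, ?_⟩⟩
    rw [sub_zero, pi_norm_le_iff_of_nonneg zero_le_one]
    intro i
    rw [Real.norm_eq_abs]
    exact le_trans (Finset.single_le_sum (f := fun i => |x i|) (fun i _ => abs_nonneg _)
      (Finset.mem_univ i)) hx
  · rintro r ⟨L, hL, h⟩
    have hr : 0 ≤ r := by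
      obtain ⟨y, _, hy⟩ := h 0 (by simp)
      exact le_trans (norm_nonneg _) hy
    have hkey : (k:ℝ) ≤ 96 * n * r^2 := by
      rcases lt_or_ge r (1/2) with hr2 | hr2
      · have hb := multichoose_bound (n := n) hk
        have hb2 : (3 * ((n:ℝ) + k) / k)^k ≤ (6 * (n:ℝ) / k)^k := by
          apply pow_le_pow_left₀ (by positivity)
          apply div_le_div_of_nonneg_right _ hkr.le
          linarith
        have hN2 : 2 * n.multichoose k ≤ N := by
          have : 2 * (n.multichoose k : ℝ) ≤ N := by linarith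
          exact_mod_cast this
        have ha := alon hk (by omega) hN2 hr hr2 L hL (by
          intro i
          exact h _ (by
            rw [Finset.sum_eq_single i]
            · simp
            · intro b _ hb
              simp [hb]
            · simp))
        by_contra hlt
        push Not at hlt
        have hx : 24 * n * r^2 / k < 1/4 := by
          rw [div_lt_iff₀ hkr]; linarith
        have hx0 : 0 ≤ 24 * n * r^2 / k := by positivity
        have h5 : (24 * n * r^2 / k)^k < 1/4 := by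
          refine lt_of_le_of_lt (pow_le_of_le_one hx0 (by linarith) (by omega)) hx
        have h6 : (n.multichoose k : ℝ) * ((2*r)^k)^2 ≤ (24 * n * r^2 / k)^k := by
          calc (n.multichoose k : ℝ) * ((2*r)^k)^2 ≤ (6 * (n:ℝ) / k)^k * ((2*r)^k)^2 :=
                mul_le_mul_of_nonneg_right (le_trans hb hb2) (by positivity)
            _ = (24 * n * r^2 / k)^k := by
                rw [← pow_mul, mul_comm k 2, pow_mul, ← mul_pow]
                congr 1
                ring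
        linarith
      · have h7 : (1:ℝ)/4 ≤ r^2 := by nlinarith
        have h8 : 96 * (n:ℝ) * (1/4) ≤ 96 * n * r^2 :=
          mul_le_mul_of_nonneg_left h7 (by positivity)
        linarith
    have hs : 0 < Real.sqrt (n:ℝ) := Real.sqrt_pos.mpr hnr
    rw [div_le_iff₀ (by positivity)]
    rw [Real.sqrt_le_left (by positivity)]
    have : (r * (10 * Real.sqrt n))^2 = 100 * n * r^2 := by
      rw [mul_pow, mul_pow, Real.sq_sqrt hnr.le]; ring
    rw [this]
    nlinarith [sq_nonneg r]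

end Pool.Agent.H60.Coh
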