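import Mathlib

set_option autoImplicit false

namespace Pool.Agent.H60.Coh

open Matrix

noncomputable def sg (b : Bool) : ℝ := if b = true then 1 else -1

theorem sg_sq (b : Bool) : sg b * sg b = 1 := by
  cases b <;> simp [sg]

noncomputable def ip {n : ℕ} (x z : Fin n → Bool) : ℝ := ∑ i, sg (x i) * sg (z i)

theorem ip_comm {n : ℕ} (x z : Fin n → Bool) : ip x z = ip z x := by
  unfold ip
  apply Finset.sum_congr rfl
  intro i _
  ring

theorem ip_self {n : ℕ} (x : Fin n → Bool) : ip x x = n := by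
  unfold ip
  simp [sg_sq]

theorem mgf {n : ℕ} (x : Fin n → Bool) (lam : ℝ) :
    ∑ z : Fin n → Bool, Real.exp (lam * ip x z) ≤ 2^n * Real.exp (n * (lam^2/2)) := by
  classical
  have h1 : ∀ z : Fin n → Bool, Real.exp (lam * ip x z)
      = ∏ i, Real.exp (lam * (sg (x i) * sg (z i))) := by
    intro z
    rw [ip, Finset.mul_sum, Real.exp_sum]
  simp_rw [h1]
  have h2 := Finset.prod_univ_sum (fun _ : Fin n => (Finset.univ : Finset Bool))
    (fun i b => Real.exp (lam * (sg (x i) * sg b)))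
  rw [Fintype.piFinset_univ] at h2
  rw [← h2]
  have h3 : ∀ i : Fin n, (∑ b : Bool, Real.exp (lam * (sg (x i) * sg b))) = 2 * Real.cosh lam := by
    intro i
    rw [Fintype.sum_bool, Real.cosh_eq]
    cases x i <;> simp [sg] <;> ring
  simp_rw [h3]
  rw [Finset.prod_const, Finset.card_univ, Fintype.card_fin, mul_pow, Real.exp_nat_mul]
  apply mul_le_mul_of_nonneg_left _ (by positivity)
  exact pow_le_pow_left₀ (Real.cosh_pos lam).le (Real.cosh_le_exp_half_sq lam) n

theorem bad_card {n : ℕ} (hn : 1 ≤ n) (x : Fin n → Bool) (t : ℝ) (ht : 0 < t) :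
    ((Finset.univ.filter (fun z : Fin n → Bool => t < |ip x z|)).card : ℝ)
      ≤ 2^n * (2 * Real.exp (-(t^2/(2*n)))) := by
  classical
  have hnr : (0:ℝ) < n := by exact_mod_cast hn
  set B := Finset.univ.filter (fun z : Fin n → Bool => t < |ip x z|) with hB
  have h1 : ∀ z ∈ B, Real.exp (t^2/n) ≤ Real.exp (t/n * ip x z) + Real.exp (-(t/n) * ip x z) := by
    intro z hz
    rw [hB, Finset.mem_filter] at hz
    have hz2 := hz.2
    have htn : 0 < t/n := div_pos ht hnr
    have hsq : t^2/n = t/n * t := by ring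
    rcases lt_abs.mp hz2 with h | h
    · have : Real.exp (t^2/n) ≤ Real.exp (t/n * ip x z) := by
        apply Real.exp_le_exp.mpr
        rw [hsq]
        exact mul_le_mul_of_nonneg_left h.le htn.le
      linarith [Real.exp_pos (-(t/n) * ip x z)]
    · have : Real.exp (t^2/n) ≤ Real.exp (-(t/n) * ip x z) := by
        apply Real.exp_le_exp.mpr
        rw [hsq]
        have : t/n * t ≤ t/n * (-ip x z) := mul_le_mul_of_nonneg_left h.le htn.le
        linarith
      linarith [Real.exp_pos (t/n * ip x z)]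
  have h2 : (B.card : ℝ) * Real.exp (t^2/n) ≤ 2 * (2^n * Real.exp (n * ((t/n)^2/2))) := by
    calc (B.card : ℝ) * Real.exp (t^2/n) = ∑ _z ∈ B, Real.exp (t^2/n) := by
          rw [Finset.sum_const, nsmul_eq_mul]
      _ ≤ ∑ z ∈ B, (Real.exp (t/n * ip x z) + Real.exp (-(t/n) * ip x z)) := Finset.sum_le_sum h1
      _ ≤ ∑ z, (Real.exp (t/n * ip x z) + Real.exp (-(t/n) * ip x z)) := by
          apply Finset.sum_le_sum_of_subset_of_nonneg (Finset.subset_univ _)
          intro z _ _
          positivity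
      _ = ∑ z, Real.exp (t/n * ip x z) + ∑ z, Real.exp (-(t/n) * ip x z) :=
          Finset.sum_add_distrib
      _ ≤ 2^n * Real.exp (n * ((t/n)^2/2)) + 2^n * Real.exp (n * ((-(t/n))^2/2)) :=
          add_le_add (mgf x _) (mgf x _)
      _ = 2 * (2^n * Real.exp (n * ((t/n)^2/2))) := by rw [neg_sq]; ring
  have h3 : Real.exp (n * ((t/n)^2/2)) = Real.exp (-(t^2/(2*n))) * Real.exp (t^2/n) := by
    rw [← Real.exp_add]
    congr 1
    field_simp
    ring
  rw [h3] at h2
  have hpos := Real.exp_pos (t^2/n)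
  have h4 : (B.card : ℝ) * Real.exp (t^2/n)
      ≤ (2^n * (2 * Real.exp (-(t^2/(2*n))))) * Real.exp (t^2/n) := by
    calc (B.card : ℝ) * Real.exp (t^2/n) ≤ _ := h2
      _ = _ := by ring
  exact le_of_mul_le_mul_right h4 hpos

theorem gv_set {n : ℕ} (hn : 1 ≤ n) (t : ℝ) (ht : 0 < t) (htn : t < n) (N : ℕ)
    (h : (N:ℝ) * (2 * Real.exp (-(t^2/(2*n)))) ≤ 1) :
    ∃ S : Finset (Fin n → Bool), S.card = N ∧ ∀ x ∈ S, ∀ z ∈ S, x ≠ z → |ip x z| ≤ t := by
  classical
  induction N with
  | zero => exact ⟨∅, rfl, by simp⟩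
  | succ N ih =>
    set e : ℝ := 2 * Real.exp (-(t^2/(2*n))) with he
    have he0 : 0 < e := by positivity
    have h1 : (N:ℝ) * e < 1 := by
      push_cast at h
      linarith
    obtain ⟨S, hS, hp⟩ := ih h1.le
    let U := S.biUnion (fun x => Finset.univ.filter (fun z : Fin n → Bool => t < |ip x z|))
    have hU : (U.card : ℝ) < 2^n := by
      have a1 : (U.card : ℝ) ≤ ∑ x ∈ S, ((Finset.univ.filter
          (fun z : Fin n → Bool => t < |ip x z|)).card : ℝ) := by
        exact_mod_cast Finset.card_biUnion_le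
      have a2 : ∑ x ∈ S, ((Finset.univ.filter
          (fun z : Fin n → Bool => t < |ip x z|)).card : ℝ) ≤ ∑ _x ∈ S, (2^n * e) :=
        Finset.sum_le_sum (fun x _ => bad_card hn x t ht)
      rw [Finset.sum_const, hS, nsmul_eq_mul] at a2
      have a3 : (N:ℝ) * (2^n * e) < 2^n := by
        have : (N:ℝ) * (2^n * e) = 2^n * (N * e) := by ring
        rw [this]
        have h2n : (0:ℝ) < 2^n := by positivity
        nlinarith
      linarith
    have hU2 : U.card < Fintype.card (Fin n → Bool) := by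
      have : Fintype.card (Fin n → Bool) = 2^n := by simp
      rw [this]
      exact_mod_cast hU
    obtain ⟨z, hz⟩ : ∃ z, z ∉ U := by
      by_contra hall
      push Not at hall
      have : U = Finset.univ := Finset.eq_univ_iff_forall.mpr hall
      rw [this, Finset.card_univ] at hU2
      exact lt_irrefl _ hU2
    have hz2 : ∀ x ∈ S, |ip x z| ≤ t := by
      intro x hx
      by_contra hlt
      push Not at hlt
      exact hz (Finset.mem_biUnion.mpr ⟨x, hx, Finset.mem_filter.mpr ⟨Finset.mem_univ _, hlt⟩⟩)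
    have hzS : z ∉ S := by
      intro hmem
      have := hz2 z hmem
      rw [ip_self, abs_of_nonneg (Nat.cast_nonneg n)] at this
      linarith
    refine ⟨insert z S, by rw [Finset.card_insert_of_notMem hzS, hS], ?_⟩
    intro x hx y hy hxy
    rcases Finset.mem_insert.mp hx with rfl | hx'
    · rcases Finset.mem_insert.mp hy with rfl | hy'
      · exact absurd rfl hxy
      · rw [ip_comm]; exact hz2 y hy'
    · rcases Finset.mem_insert.mp hy with rfl | hy'
      · exact hz2 x hx'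
      · exact hp x hx' y hy' hxy

theorem gv {n : ℕ} (hn : 1 ≤ n) (t : ℝ) (ht : 0 < t) (htn : t < n) (N : ℕ)
    (h : (N:ℝ) * (2 * Real.exp (-(t^2/(2*n)))) ≤ 1) :
    ∃ Φ : Fin N → EuclideanSpace ℝ (Fin n), (∀ i, ‖Φ i‖ = 1) ∧
      ∀ i j, i ≠ j → |inner ℝ (Φ i) (Φ j)| ≤ t / n := by
  classical
  have hnr : (0:ℝ) < n := by exact_mod_cast hn
  obtain ⟨S, hS, hp⟩ := gv_set hn t ht htn N h
  let e := (Finset.equivFinOfCardEq hS).symm
  let Φ : Fin N → EuclideanSpace ℝ (Fin n) := fun i =>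
    WithLp.toLp 2 (fun l => sg ((e i : Fin n → Bool) l) * (Real.sqrt n)⁻¹)
  have hin : ∀ i j, inner ℝ (Φ i) (Φ j) = ip (e i : Fin n → Bool) (e j : Fin n → Bool) / n := by
    intro i j
    rw [PiLp.inner_apply, ip, Finset.sum_div]
    apply Finset.sum_congr rfl
    intro l _
    simp only [Φ, RCLike.inner_apply, conj_trivial]
    have h1 : (Real.sqrt (n:ℝ))⁻¹ * (Real.sqrt (n:ℝ))⁻¹ = (n:ℝ)⁻¹ := by
      rw [← mul_inv, Real.mul_self_sqrt hnr.le]
    calc sg ((e j : Fin n → Bool) l) * (Real.sqrt n)⁻¹ * (sg ((e i : Fin n → Bool) l) * (Real.sqrt n)⁻¹)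
        = sg ((e i : Fin n → Bool) l) * sg ((e j : Fin n → Bool) l) *
          ((Real.sqrt (n:ℝ))⁻¹ * (Real.sqrt (n:ℝ))⁻¹) := by ring
      _ = _ := by rw [h1, div_eq_mul_inv]
  refine ⟨Φ, fun i => ?_, fun i j hij => ?_⟩
  · have h3 : ‖Φ i‖^2 = 1 := by
      rw [← real_inner_self_eq_norm_sq, hin, ip_self]
      exact div_self hnr.ne'
    nlinarith [norm_nonneg (Φ i)]
  · rw [hin, abs_div, abs_of_pos hnr]
    apply div_le_div_of_nonneg_right _ hnr.le
    apply hp _ (e i).2 _ (e j).2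
    intro heq
    exact hij (e.injective (Subtype.ext heq))

end Pool.Agent.H60.Coh
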