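import Pool.Agent.H60.CohA
import Pool.Agent.H60.CohC
import Pool.Agent.H60.CohD
import Pool.Agent.H60.CohE
import Pool.Agent.H60.CohF

set_option autoImplicit false

namespace Pool.Agent.H60.CohG

open Pool.Agent.H60.Coh

/-- `c(N,n)`: the least coherence of `N` unit vectors in `ℝⁿ`. -/
noncomputable def coherence (N n : ℕ) : ℝ :=
  sInf {m : ℝ | ∃ Φ : Fin N → EuclideanSpace ℝ (Fin n),
          (∀ i, ‖Φ i‖ = 1) ∧ ∀ i j, i ≠ j → |inner ℝ (Φ i) (Φ j)| ≤ m}

/-- `d_n(B_1^N, ℓ_∞^N)`: the Kolmogorov `n`-width of the octahedron in the max norm. -/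
noncomputable def width (N n : ℕ) : ℝ :=
  sInf {r : ℝ | ∃ L : Submodule ℝ (Fin N → ℝ), Module.finrank ℝ L ≤ n ∧
          ∀ x : Fin N → ℝ, ∑ i, |x i| ≤ 1 → ∃ y ∈ L, ‖x - y‖ ≤ r}

theorem coh_le {N n : ℕ} (hN : 2 ≤ N) (m : ℝ) (Φ : Fin N → EuclideanSpace ℝ (Fin n))
    (h1 : ∀ i, ‖Φ i‖ = 1) (h2 : ∀ i j, i ≠ j → |inner ℝ (Φ i) (Φ j)| ≤ m) :
    coherence N n ≤ m := by
  apply csInf_le
  · refine ⟨0, ?_⟩
    rintro x ⟨Ψ, _, hΨ⟩
    exact le_trans (abs_nonneg _) (hΨ ⟨0, by omega⟩ ⟨1, by omega⟩ (by simp [Fin.ext_iff]))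
  · exact ⟨Φ, h1, h2⟩

theorem coh_le_one {N n : ℕ} (hN : 2 ≤ N) (hn : 1 ≤ n) : coherence N n ≤ 1 := by
  apply coh_le hN 1 (fun _ => EuclideanSpace.single (⟨0, hn⟩ : Fin n) (1:ℝ))
  · intro i; simp
  · intro i j _
    refine le_trans (abs_real_inner_le_norm _ _) ?_
    simp

theorem width_ge {N n : ℕ} (M : ℕ) (hM : M ≤ N) (hM0 : 0 < M) :
    Real.sqrt ((M : ℝ) - n) / M ≤ width N n := width_lower M hM hM0

theorem near0 {N n : ℕ} (hnN : n < N) (h : 3 * N ≤ 4 * n) :
    coherence N n ≤ 6 * (Real.sqrt ((N:ℝ) - n) / N) := by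
  obtain ⟨k, hk⟩ : ∃ k, N = n + k := ⟨N - n, by omega⟩
  have hk1 : 1 ≤ k := by omega
  have h4 : 4 * k ≤ N := by omega
  obtain ⟨r, hr1, hr2⟩ : ∃ r, k ≤ 2^r ∧ 2^r < 2 * k := by
    refine ⟨Nat.clog 2 k, Nat.le_pow_clog (by norm_num) k, ?_⟩
    rcases Nat.lt_or_ge 1 k with h1 | h1
    · have h2 := Nat.pow_pred_clog_lt_self (b := 2) (by norm_num) h1
      have h3 : 0 < Nat.clog 2 k := Nat.clog_pos (by norm_num) h1
      have h5 : 2 ^ Nat.clog 2 k = 2 * 2 ^ (Nat.clog 2 k).pred := by
        rw [← pow_succ', Nat.pred_eq_sub_one, Nat.sub_add_cancel h3]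
      rw [h5]
      omega
    · have : k = 1 := by omega
      subst this
      simp
  set H := 2^r with hH
  have hH0 : 0 < H := by rw [hH]; positivity
  set M0 := N / (2 * H) with hM0
  have hM01 : 0 < M0 := Nat.div_pos (by omega) (by omega)
  have hM02 : 2 * H * M0 ≤ N := Nat.mul_div_le N (2 * H)
  have hM03 : N < 2 * H * (M0 + 1) := by
    have := Nat.lt_mul_div_succ N (show 0 < 2 * H by omega)
    simpa [hM0] using this
  have hM04 : N ≤ 4 * H * M0 := by nlinarith
  obtain ⟨Φ, h1, h2⟩ := block_vectors r N n M0 hM01 (by rw [← hH]; exact hM02) (by rw [← hH]; omega)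
  have hNk : (N : ℝ) - n = k := by rw [hk]; push_cast; ring
  rw [hNk]
  have hc := coh_le (by omega) _ Φ h1 h2
  refine le_trans hc ?_
  have hNpos : (0:ℝ) < N := by exact_mod_cast (by omega : 0 < N)
  have hM0r : (0:ℝ) < M0 := by exact_mod_cast hM01
  have hHr : (0:ℝ) < H := by exact_mod_cast hH0
  have hcast : ((2:ℝ)^r) = (H:ℝ) := by rw [hH]; push_cast; rfl
  rw [hcast]
  have hs : 0 < Real.sqrt (H:ℝ) := Real.sqrt_pos.mpr hHr
  rw [← mul_div_assoc, div_le_div_iff₀ (mul_pos hs hM0r) hNpos, one_mul]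
  have e1 : 2 * Real.sqrt H ≤ 3 * Real.sqrt k := by
    have : Real.sqrt (4 * H) ≤ Real.sqrt (9 * k) := by
      apply Real.sqrt_le_sqrt
      have : (H:ℝ) < 2 * k := by exact_mod_cast hr2
      have hk0 : (0:ℝ) < k := by exact_mod_cast hk1
      linarith
    rw [Real.sqrt_mul (by norm_num), Real.sqrt_mul (by norm_num)] at this
    rw [show (4:ℝ) = 2^2 by norm_num, show (9:ℝ) = 3^2 by norm_num,
      Real.sqrt_sq (by norm_num), Real.sqrt_sq (by norm_num)] at this
    exact this
  have e2 : (N:ℝ) ≤ 4 * H * M0 := by exact_mod_cast hM04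
  have e3 : (H:ℝ) = Real.sqrt H * Real.sqrt H := (Real.mul_self_sqrt hHr.le).symm
  calc (N:ℝ) ≤ 4 * H * M0 := e2
    _ = (2 * Real.sqrt H) * (2 * Real.sqrt H * M0) := by nth_rewrite 1 [e3]; ring
    _ ≤ (3 * Real.sqrt k) * (2 * Real.sqrt H * M0) :=
        mul_le_mul_of_nonneg_right e1 (by positivity)
    _ = 6 * Real.sqrt k * (Real.sqrt H * M0) := by ring

theorem near {N n : ℕ} (_hn : 1 ≤ n) (hnN : n < N) (h : 3 * N ≤ 4 * n) :
    coherence N n ≤ 6 * width N n :=
  le_trans (near0 hnN h) (mul_le_mul_of_nonneg_left (width_ge (n := n) N le_rfl (by omega))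
    (by norm_num))

theorem width_nonneg (N n : ℕ) (hN : 0 < N) : 0 ≤ width N n :=
  le_trans (by positivity) (width_ge (n := n) N le_rfl hN)

theorem far_width {N n : ℕ} (hn : 1 ≤ n) (h : 4 * n < 3 * N) :
    1 / (3 * Real.sqrt n) ≤ width N n := by
  have hnr : (0:ℝ) < n := by exact_mod_cast hn
  have hs : 0 < Real.sqrt (n:ℝ) := Real.sqrt_pos.mpr hnr
  rcases Nat.lt_or_ge (2 * n) N with h2 | h2
  · refine le_trans ?_ (width_ge (n := n) (2 * n) h2.le (by omega))
    have : ((2 * n : ℕ) : ℝ) - n = n := by push_cast; ring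
    rw [this, div_le_div_iff₀ (by positivity) (by exact_mod_cast (by omega : 0 < 2 * n)), one_mul]
    push_cast
    have := Real.mul_self_sqrt hnr.le
    nlinarith
  · have hN0 : 0 < N := by omega
    refine le_trans ?_ (width_ge (n := n) N le_rfl hN0)
    have hNr : (0:ℝ) < N := by exact_mod_cast hN0
    rw [div_le_div_iff₀ (by positivity) hNr, one_mul]
    have h3 : (4:ℝ) * n < 3 * N := by exact_mod_cast h
    have h4 : (N:ℝ) ≤ 2 * n := by exact_mod_cast h2
    have h5 : (N:ℝ) ≤ Real.sqrt (((N:ℝ) - n) * (9 * n)) := by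
      apply Real.le_sqrt_of_sq_le
      nlinarith
    rw [Real.sqrt_mul (by linarith), Real.sqrt_mul (by norm_num),
      show (9:ℝ) = 3^2 by norm_num, Real.sqrt_sq (by norm_num)] at h5
    exact h5

theorem poly_coh {N n K : ℕ} (hn : 1 ≤ n) (hnN : n < N) (h : N ≤ n^K) :
    coherence N n ≤ (8 * K + 2) / Real.sqrt n := by
  have hnr : (0:ℝ) < n := by exact_mod_cast hn
  have hs : 0 < Real.sqrt (n:ℝ) := Real.sqrt_pos.mpr hnr
  rcases Nat.lt_or_ge n 4 with h4 | h4
  · refine le_trans (coh_le_one (by omega) hn) ?_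
    rw [le_div_iff₀ hs, one_mul]
    have : Real.sqrt (n:ℝ) ≤ 2 := by
      rw [Real.sqrt_le_left (by norm_num)]
      have : (n:ℝ) < 4 := by exact_mod_cast h4
      linarith
    have hK : (0:ℝ) ≤ K := Nat.cast_nonneg K
    linarith
  · have hsq : 2 ≤ Nat.sqrt n := by
      rw [Nat.le_sqrt]; omega
    obtain ⟨p, hp, hp1, hp2⟩ := Nat.exists_prime_lt_and_le_two_mul (Nat.sqrt n / 2) (by omega)
    have hp3 : p ≤ Nat.sqrt n := by omega
    have hp4 : Nat.sqrt n + 1 ≤ 2 * p := by omega
    have hp5 : p^2 ≤ n := le_trans (Nat.pow_le_pow_left hp3 2) (Nat.sqrt_le' n)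
    have hp6 : n < 4 * p^2 := by
      have h1 : n < (Nat.sqrt n + 1)^2 := Nat.lt_succ_sqrt' n
      have h2 : (Nat.sqrt n + 1)^2 ≤ (2 * p)^2 := Nat.pow_le_pow_left hp4 2
      have h3 : (2 * p)^2 = 4 * p^2 := by ring
      omega
    have hp7 : N ≤ p^(4 * K) := by
      have h2p : 2 ≤ p := hp.two_le
      have h1 : n ≤ p^4 := by
        have : 4 * p^2 ≤ p^4 := by
          have : 4 ≤ p^2 := by nlinarith
          calc 4 * p^2 ≤ p^2 * p^2 := Nat.mul_le_mul_right _ this
            _ = p^4 := by ring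
        omega
      calc N ≤ n^K := h
        _ ≤ (p^4)^K := Nat.pow_le_pow_left h1 K
        _ = p^(4*K) := by rw [← pow_mul]
    obtain ⟨Φ, h1, h2⟩ := devore p hp (4 * K) N n hp7 hp5
    refine le_trans (coh_le (by omega) _ Φ h1 h2) ?_
    have hpr : (0:ℝ) < p := by exact_mod_cast hp.pos
    rw [div_le_div_iff₀ hpr hs]
    have hsp : Real.sqrt (n:ℝ) ≤ 2 * p := by
      rw [Real.sqrt_le_left (by positivity)]
      have : (n:ℝ) < 4 * p^2 := by exact_mod_cast hp6
      nlinarith
    push_cast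
    have hK : (0:ℝ) ≤ K := Nat.cast_nonneg K
    nlinarith

theorem exp_width {N n : ℕ} (h : 5^n < N) : 1 / 5 ≤ width N n := by
  classical
  apply le_csInf
  · refine ⟨1, ⊥, by simp, fun x hx => ⟨0, by simp, ?_⟩⟩
    rw [sub_zero, pi_norm_le_iff_of_nonneg zero_le_one]
    intro i
    rw [Real.norm_eq_abs]
    exact le_trans (Finset.single_le_sum (f := fun i => |x i|) (fun i _ => abs_nonneg _)
      (Finset.mem_univ i)) hx
  · rintro r ⟨L, hL, hr⟩
    by_contra hlt
    push Not at hlt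
    have hr0 : 0 ≤ r := by
      obtain ⟨y, _, hy⟩ := hr 0 (by simp)
      exact le_trans (norm_nonneg _) hy
    have key : ∀ i : Fin N, ∃ y : L, ‖(Pi.single i (1:ℝ) : Fin N → ℝ) - y‖ ≤ r := by
      intro i
      obtain ⟨y, hyL, hy⟩ := hr (Pi.single i 1) (by
        rw [Finset.sum_eq_single i]
        · simp
        · intro b _ hb
          simp [hb]
        · simp)
      exact ⟨⟨y, hyL⟩, hy⟩
    choose y hy using key
    have hsep : ∀ i j : Fin N, i ≠ j → 1 - 2 * r ≤ ‖y i - y j‖ := by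
      intro i j hij
      have h1 : (1:ℝ) ≤ ‖(Pi.single i (1:ℝ) : Fin N → ℝ) - Pi.single j 1‖ := by
        have := norm_le_pi_norm ((Pi.single i (1:ℝ) : Fin N → ℝ) - Pi.single j 1) i
        simpa [hij] using this
      have h2 : ((Pi.single i (1:ℝ) : Fin N → ℝ) - Pi.single j 1)
          = (((Pi.single i (1:ℝ) : Fin N → ℝ) - (y i : Fin N → ℝ)) -
              ((Pi.single j (1:ℝ) : Fin N → ℝ) - (y j : Fin N → ℝ)))
            + ((y i - y j : L) : Fin N → ℝ) := by
        rw [Submodule.coe_sub]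
        abel
      have h3 := norm_add_le (((Pi.single i (1:ℝ) : Fin N → ℝ) - (y i : Fin N → ℝ)) -
        ((Pi.single j (1:ℝ) : Fin N → ℝ) - (y j : Fin N → ℝ))) ((y i - y j : L) : Fin N → ℝ)
      have h4 := norm_sub_le ((Pi.single i (1:ℝ) : Fin N → ℝ) - (y i : Fin N → ℝ))
        ((Pi.single j (1:ℝ) : Fin N → ℝ) - (y j : Fin N → ℝ))
      rw [← h2] at h3
      have h5 : ‖((y i - y j : L) : Fin N → ℝ)‖ = ‖y i - y j‖ := rfl
      rw [h5] at h3
      linarith [hy i, hy j]
    have hbd : ∀ i : Fin N, ‖y i‖ ≤ 1 + r := by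
      intro i
      have h1 : ‖(Pi.single i (1:ℝ) : Fin N → ℝ)‖ ≤ 1 := by
        rw [pi_norm_le_iff_of_nonneg zero_le_one]
        intro j
        by_cases hj : j = i
        · subst hj; simp
        · simp [hj]
      have h2 : ((y i : L) : Fin N → ℝ) = (Pi.single i (1:ℝ) : Fin N → ℝ) -
          ((Pi.single i (1:ℝ) : Fin N → ℝ) - (y i : Fin N → ℝ)) := by abel
      have h3 := norm_sub_le (Pi.single i (1:ℝ) : Fin N → ℝ)
        ((Pi.single i (1:ℝ) : Fin N → ℝ) - (y i : Fin N → ℝ))
      rw [← h2] at h3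
      have h5 : ‖((y i : L) : Fin N → ℝ)‖ = ‖y i‖ := rfl
      rw [h5] at h3
      linarith [hy i]
    have hd : 0 < 1 - 2 * r := by linarith
    let z : Fin N → L := fun i => (1 - 2 * r)⁻¹ • y i
    have hz1 : ∀ i, ‖z i‖ ≤ 2 := by
      intro i
      simp only [z]
      rw [norm_smul, norm_inv, Real.norm_of_nonneg hd.le, inv_mul_le_iff₀ hd]
      linarith [hbd i]
    have hz2 : ∀ i j, i ≠ j → 1 ≤ ‖z i - z j‖ := by
      intro i j hij
      have hzz : z i - z j = (1 - 2 * r)⁻¹ • (y i - y j) := (smul_sub _ _ _).symm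
      rw [hzz, norm_smul, norm_inv, Real.norm_of_nonneg hd.le, le_inv_mul_iff₀ hd]
      linarith [hsep i j hij]
    have hzinj : Function.Injective z := by
      intro i j hij
      by_contra hne
      have := hz2 i j hne
      rw [hij, sub_self, norm_zero] at this
      linarith
    have hcard := Besicovitch.card_le_of_separated (Finset.univ.image z) (by
      intro c hc
      obtain ⟨i, _, rfl⟩ := Finset.mem_image.mp hc
      exact hz1 i) (by
      intro c hc d hd' hcd
      obtain ⟨i, _, rfl⟩ := Finset.mem_image.mp hc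
      obtain ⟨j, _, rfl⟩ := Finset.mem_image.mp hd'
      exact hz2 i j (fun hij => hcd (by rw [hij])))
    rw [Finset.card_image_of_injective _ hzinj, Finset.card_univ, Fintype.card_fin] at hcard
    have : 5 ^ Module.finrank ℝ L ≤ 5^n := Nat.pow_le_pow_right (by norm_num) hL
    omega

/-- The minimal coherence and the width are equivalent in the polynomial range, with an absolute
constant for `n < N ≤ (4/3) n`, and for `N > 5^n`. -/
theorem result1 :
    (∀ N n : ℕ, 1 ≤ n → n < N → 3 * N ≤ 4 * n → coherence N n ≤ 6 * width N n) ∧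
    (∀ K N n : ℕ, 1 ≤ n → n < N → N ≤ n ^ K →
      coherence N n ≤ (24 * K + 6) * width N n) ∧
    (∀ N n : ℕ, 1 ≤ n → 5 ^ n < N → coherence N n ≤ 5 * width N n) := by
  refine ⟨fun N n hn hnN h => near hn hnN h, fun K N n hn hnN h => ?_, fun N n hn h => ?_⟩
  · have hw0 := width_nonneg N n (by omega)
    have hK : (0:ℝ) ≤ K := Nat.cast_nonneg K
    rcases Nat.lt_or_ge (4 * n) (3 * N) with h1 | h1
    · have h2 := far_width hn h1
      have h3 := poly_coh hn hnN h
      have hnr : (0:ℝ) < n := by exact_mod_cast hn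
      have hs : 0 < Real.sqrt (n:ℝ) := Real.sqrt_pos.mpr hnr
      refine le_trans h3 ?_
      have h4 : (8 * (K:ℝ) + 2) / Real.sqrt n = (24 * K + 6) * (1 / (3 * Real.sqrt n)) := by
        field_simp
        ring
      rw [h4]
      exact mul_le_mul_of_nonneg_left h2 (by positivity)
    · refine le_trans (near hn hnN h1) ?_
      apply mul_le_mul_of_nonneg_right _ hw0
      linarith
  · have h1 := exp_width h
    have h5 : 1 ≤ 5^n := Nat.one_le_pow _ _ (by norm_num)
    have h2 := coh_le_one (N := N) (n := n) (by omega) hn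
    linarith


theorem gv_coh {N n : ℕ} (hn : 1 ≤ n) (hN : 2 ≤ N) :
    coherence N n ≤ Real.sqrt (2 * Real.log (2 * N)) / Real.sqrt n := by
  have hnr : (0:ℝ) < n := by exact_mod_cast hn
  have hNr : (2:ℝ) ≤ N := by exact_mod_cast hN
  have hlog : 0 < Real.log (2 * N) := Real.log_pos (by linarith)
  have hs : 0 < Real.sqrt (n:ℝ) := Real.sqrt_pos.mpr hnr
  set t : ℝ := Real.sqrt n * Real.sqrt (2 * Real.log (2 * N)) with ht
  have ht0 : 0 < t := mul_pos hs (Real.sqrt_pos.mpr (by linarith))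
  have htn : t / n = Real.sqrt (2 * Real.log (2 * N)) / Real.sqrt n := by
    rw [ht, div_eq_div_iff hnr.ne' hs.ne']
    have := Real.mul_self_sqrt hnr.le
    calc Real.sqrt n * Real.sqrt (2 * Real.log (2 * N)) * Real.sqrt n
        = Real.sqrt (2 * Real.log (2 * N)) * (Real.sqrt n * Real.sqrt n) := by ring
      _ = _ := by rw [this]
  rw [← htn]
  rcases lt_or_ge t n with h | h
  · have hexp : (N:ℝ) * (2 * Real.exp (-(t^2/(2*n)))) ≤ 1 := by
      have h1 : t^2/(2*n) = Real.log (2 * N) := by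
        rw [ht, mul_pow, Real.sq_sqrt hnr.le, Real.sq_sqrt (by linarith)]
        field_simp
      rw [h1, Real.exp_neg, Real.exp_log (by linarith)]
      rw [show (N:ℝ) * (2 * (2 * (N:ℝ))⁻¹) = (2 * N) * (2 * (N:ℝ))⁻¹ by ring]
      rw [mul_inv_cancel₀ (by positivity)]
    obtain ⟨Φ, h1, h2⟩ := gv hn t ht0 h N hexp
    exact coh_le hN _ Φ h1 h2
  · refine le_trans (coh_le_one hN hn) ?_
    rw [le_div_iff₀ hnr, one_mul]
    exact h

/-- interpolating bound -/
theorem interp {N n k : ℕ} (hk : 1 ≤ k) (hkn : k ≤ n) (hnN : n < N)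
    (hN : 2 * (6 * (n:ℝ) / k)^k ≤ N) :
    coherence N n ≤ 15 * Real.sqrt (Real.log (2 * N) / k) * width N n := by
  have hkr : (0:ℝ) < k := by exact_mod_cast hk
  have hnr : (0:ℝ) < n := by exact_mod_cast (by omega : 0 < n)
  have hNr : (2:ℝ) ≤ N := by exact_mod_cast (by omega : 2 ≤ N)
  have hlog : 0 < Real.log (2 * N) := Real.log_pos (by linarith)
  have hs : 0 < Real.sqrt (n:ℝ) := Real.sqrt_pos.mpr hnr
  have hsk : 0 < Real.sqrt (k:ℝ) := Real.sqrt_pos.mpr hkr
  have h1 := gv_coh (N := N) (n := n) (by omega) (by omega)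
  have h2 : Real.sqrt k / (10 * Real.sqrt n) ≤ width N n := width_alon hk hkn hN
  refine le_trans h1 (le_trans ?_ (mul_le_mul_of_nonneg_left h2 (by positivity)))
  rw [Real.sqrt_div hlog.le, Real.sqrt_mul (by norm_num)]
  have h3 : 15 * (Real.sqrt (Real.log (2 * N)) / Real.sqrt k) * (Real.sqrt k / (10 * Real.sqrt n))
      = 3/2 * Real.sqrt (Real.log (2 * N)) / Real.sqrt n := by
    field_simp
    ring
  rw [h3]
  apply div_le_div_of_nonneg_right _ hs.le
  apply mul_le_mul_of_nonneg_right _ (Real.sqrt_nonneg _)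
  rw [Real.sqrt_le_left (by norm_num)]
  norm_num

theorem exp_range (a : ℝ) (ha : 0 < a) : ∃ C : ℝ, 0 < C ∧ ∀ N n : ℕ, 1 ≤ n → n < N →
    Real.exp (a * n) ≤ N → coherence N n ≤ C * width N n := by
  -- choose m
  have hlim : Filter.Tendsto (fun m : ℕ => Real.log (12 * m) / m) Filter.atTop (nhds 0) := by
    have h1 : Filter.Tendsto (fun x : ℝ => Real.log x / x) Filter.atTop (nhds 0) :=
      Real.isLittleO_log_id_atTop.tendsto_div_nhds_zero
    have h2 : Filter.Tendsto (fun m : ℕ => (12 * (m:ℝ))) Filter.atTop Filter.atTop :=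
      Filter.Tendsto.const_mul_atTop (by norm_num) tendsto_natCast_atTop_atTop
    have h3 := (h1.comp h2).const_mul 12
    rw [mul_zero] at h3
    refine h3.congr ?_
    intro m
    simp only [Function.comp]
    rcases Nat.eq_zero_or_pos m with h | h
    · subst h; simp
    · have : (0:ℝ) < m := by exact_mod_cast h
      field_simp
  have hlim2 : Filter.Tendsto (fun m : ℕ => Real.log 2 / (m:ℝ)) Filter.atTop (nhds 0) :=
    tendsto_const_div_atTop_nhds_zero_nat _
  obtain ⟨m, hm1, hm2, hm3⟩ := ((hlim.eventually_lt_const (show (0:ℝ) < a/2 by positivity)).and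
    ((hlim2.eventually_lt_const (show (0:ℝ) < a/2 by positivity)).and
      (Filter.eventually_ge_atTop 1))).exists
  have hmr : (0:ℝ) < m := by exact_mod_cast hm3
  refine ⟨15 * Real.sqrt (6 * m) + 6, by positivity, fun N n hn hnN hN => ?_⟩
  have hnr : (0:ℝ) < n := by exact_mod_cast hn
  have hw0 := width_nonneg N n (by omega)
  have hs6 : 0 ≤ 15 * Real.sqrt (6 * (m:ℝ)) := by positivity
  rcases Nat.lt_or_ge (4 * n) (3 * N) with hfar | hnear
  swap
  · refine le_trans (near hn hnN hnear) ?_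
    exact mul_le_mul_of_nonneg_right (by linarith) hw0
  rcases Nat.lt_or_ge (5^n) N with h5 | h5
  · have h1 := exp_width h5
    have h2 := coh_le_one (N := N) (n := n) (by omega) hn
    nlinarith
  rcases Nat.lt_or_ge n m with hnm | hnm
  · have h1 := far_width hn hfar
    have h2 := coh_le_one (N := N) (n := n) (by omega) hn
    have hs : 0 < Real.sqrt (n:ℝ) := Real.sqrt_pos.mpr hnr
    have h3 : Real.sqrt (n:ℝ) ≤ Real.sqrt (6 * m) := by
      apply Real.sqrt_le_sqrt
      have : (n:ℝ) < m := by exact_mod_cast hnm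
      linarith
    have h4 : 1 ≤ 3 * Real.sqrt n * width N n := by
      rw [div_le_iff₀ (by positivity)] at h1
      linarith
    have h5' : 3 * Real.sqrt n * width N n ≤ (15 * Real.sqrt (6 * m) + 6) * width N n := by
      apply mul_le_mul_of_nonneg_right _ hw0
      linarith
    linarith
  · -- main case
    obtain ⟨k, hk⟩ : ∃ k, k = n / m := ⟨_, rfl⟩
    have hk1 : 1 ≤ k := by rw [hk]; exact Nat.div_pos hnm hm3
    have hk2 : m * k ≤ n := by rw [hk]; exact Nat.mul_div_le n m
    have hk3 : n < m * (k + 1) := by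
      have := Nat.lt_mul_div_succ n hm3
      rw [hk]; simpa using this
    have hkn : k ≤ n := le_trans (Nat.le_mul_of_pos_left k hm3) hk2
    have hkr : (0:ℝ) < k := by exact_mod_cast hk1
    have hk2r : (m:ℝ) * k ≤ n := by exact_mod_cast hk2
    have hn2mk : (n:ℝ) ≤ 2 * m * k := by
      have h1 : (n:ℝ) < m * (k + 1) := by exact_mod_cast hk3
      have h2 : (1:ℝ) ≤ k := by exact_mod_cast hk1
      nlinarith
    have hcond : 2 * (6 * (n:ℝ) / k)^k ≤ N := by
      refine le_trans ?_ hN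
      have h1 : (6 * (n:ℝ) / k)^k ≤ (12 * (m:ℝ))^k := by
        apply pow_le_pow_left₀ (by positivity)
        rw [div_le_iff₀ hkr]
        linarith
      have h2 : 2 * (12 * (m:ℝ))^k = Real.exp (Real.log 2 + k * Real.log (12 * m)) := by
        rw [Real.exp_add, Real.exp_log (by norm_num), mul_comm (k:ℝ), Real.exp_mul,
          Real.exp_log (by positivity), Real.rpow_natCast]
      have hm1r : (1:ℝ) ≤ m := by exact_mod_cast hm3
      have hlog12 : 0 ≤ Real.log (12 * m) := Real.log_nonneg (by linarith)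
      have h3 : Real.log 2 + k * Real.log (12 * m) ≤ a * n := by
        rw [div_lt_iff₀ hmr] at hm1 hm2
        have e1 : (k:ℝ) * Real.log (12 * m) ≤ k * (a/2 * m) :=
          mul_le_mul_of_nonneg_left hm1.le hkr.le
        have e2 : (k:ℝ) * (a/2 * m) ≤ a/2 * n := by nlinarith
        have e3 : Real.log 2 ≤ a/2 * n := by
          have : (m:ℝ) ≤ n := by exact_mod_cast hnm
          nlinarith
        linarith
      calc 2 * (6 * (n:ℝ) / k)^k ≤ 2 * (12 * (m:ℝ))^k := by linarith
        _ = Real.exp (Real.log 2 + k * Real.log (12 * m)) := h2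
        _ ≤ Real.exp (a * n) := Real.exp_le_exp.mpr h3
    have h1 := interp hk1 hkn hnN hcond
    refine le_trans h1 ?_
    apply mul_le_mul_of_nonneg_right _ hw0
    have hNr : (2:ℝ) ≤ N := by exact_mod_cast (by omega : 2 ≤ N)
    have h2 : Real.log (2 * N) ≤ 3 * n := by
      have h3 : (N:ℝ) ≤ 5^n := by exact_mod_cast h5
      have h4 : Real.log (2 * N) ≤ Real.log (2 * 5^n) := by
        apply Real.log_le_log (by linarith)
        linarith
      have h4' : Real.log (2 * 5^n) = Real.log 2 + n * Real.log 5 := by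
        rw [Real.log_mul (by norm_num) (by positivity), Real.log_pow]
      rw [h4'] at h4
      have h6 : Real.log 5 ≤ 2 := by
        rw [Real.log_le_iff_le_exp (by norm_num)]
        have : (2.7:ℝ) < Real.exp 1 := by linarith [Real.exp_one_gt_d9]
        have h7 : Real.exp 2 = Real.exp 1 * Real.exp 1 := by rw [← Real.exp_add]; norm_num
        rw [h7]; nlinarith
      have h8 : Real.log 2 ≤ 1 := by linarith [Real.log_two_lt_d9]
      have h9 : (1:ℝ) ≤ n := by exact_mod_cast hn
      nlinarith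
    have h3 : Real.log (2 * N) / k ≤ 6 * m := by
      rw [div_le_iff₀ hkr]
      nlinarith
    have h4 := Real.sqrt_le_sqrt h3
    linarith

theorem log_range : ∀ N n : ℕ, 1 ≤ n → n < N →
    coherence N n ≤ 126 * Real.sqrt (1 + Real.log n) * width N n := by
  intro N n hn hnN
  have hnr : (1:ℝ) ≤ n := by exact_mod_cast hn
  have hw0 := width_nonneg N n (by omega)
  have hlogn : 0 ≤ Real.log n := Real.log_nonneg hnr
  have hs1 : 1 ≤ Real.sqrt (1 + Real.log n) := by
    rw [Real.one_le_sqrt]; linarith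
  have fin : ∀ c : ℝ, c ≤ 126 → coherence N n ≤ c * width N n →
      coherence N n ≤ 126 * Real.sqrt (1 + Real.log n) * width N n := by
    intro c hc h
    refine le_trans h (mul_le_mul_of_nonneg_right ?_ hw0)
    nlinarith
  rcases Nat.lt_or_ge (4 * n) (3 * N) with hfar | hnear
  swap
  · exact fin 6 (by norm_num) (near hn hnN hnear)
  rcases Nat.lt_or_ge (5^n) N with h5 | h5
  · have h1 := exp_width h5
    have h2 := coh_le_one (N := N) (n := n) (by omega) hn
    exact fin 5 (by norm_num) (by linarith)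
  rcases Nat.lt_or_ge N (12 * n) with h12 | h12
  · rcases Nat.lt_or_ge n 2 with hn2 | hn2
    · have hn1 : n = 1 := by omega
      subst hn1
      have h1 := far_width hn hfar
      have h2 := coh_le_one (N := N) (n := 1) (by omega) hn
      simp only [Nat.cast_one, Real.sqrt_one, mul_one] at h1
      exact fin 3 (by norm_num) (by linarith)
    · have hN5 : N ≤ n^5 := by
        have : 16 ≤ n^4 := by
          calc 16 = 2^4 := by norm_num
            _ ≤ n^4 := Nat.pow_le_pow_left hn2 4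
        calc N ≤ 12 * n := h12.le
          _ ≤ n^4 * n := Nat.mul_le_mul_right n (by omega)
          _ = n^5 := by ring
      have := result1.2.1 5 N n hn hnN hN5
      refine fin (24 * (5:ℕ) + 6) (by norm_num) this
  · -- k = Nat.log (6n) (N/2)
    have h6 : 1 < 6 * n := by omega
    obtain ⟨k, hk⟩ : ∃ k, k = Nat.log (6 * n) (N / 2) := ⟨_, rfl⟩
    have hN2 : 6 * n ≤ N / 2 := by omega
    have hk1 : 1 ≤ k := by
      rw [hk]
      exact Nat.log_pos h6 hN2
    have hk2 : (6 * n)^k ≤ N / 2 := by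
      rw [hk]; exact Nat.pow_log_le_self _ (by omega)
    have hk3 : N / 2 < (6 * n)^(k+1) := by
      rw [hk]; exact Nat.lt_pow_succ_log_self h6 _
    have hkr : (1:ℝ) ≤ k := by exact_mod_cast hk1
    have hkn : k ≤ n := by
      by_contra hlt
      push Not at hlt
      have a1 : 5^n ≤ (6 * n)^k := by
        calc 5^n ≤ (6 * n)^n := Nat.pow_le_pow_left (by omega) n
          _ ≤ (6 * n)^k := Nat.pow_le_pow_right (by omega) hlt.le
      have : 1 ≤ 5^n := Nat.one_le_pow _ _ (by norm_num)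
      omega
    have hcond : 2 * (6 * (n:ℝ) / k)^k ≤ N := by
      have a1 : (6 * (n:ℝ) / k)^k ≤ (6 * (n:ℝ))^k := by
        apply pow_le_pow_left₀ (by positivity)
        exact div_le_self (by positivity) hkr
      have a2 : 2 * (6 * n)^k ≤ N := by omega
      have a3 : 2 * (6 * (n:ℝ))^k ≤ N := by exact_mod_cast a2
      linarith
    have h1 := interp hk1 hkn hnN hcond
    refine le_trans h1 (mul_le_mul_of_nonneg_right ?_ hw0)
    have hN0 : (0:ℝ) < 2 * N := by
      have : (0:ℝ) < N := by exact_mod_cast (by omega : 0 < N)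
      linarith
    have h2N : 2 * N ≤ (6 * n)^(k+2) := by
      have : 2 * N ≤ 4 * (6 * n)^(k+1) := by omega
      calc 2 * N ≤ 4 * (6 * n)^(k+1) := this
        _ ≤ (6 * n) * (6 * n)^(k+1) := Nat.mul_le_mul_right _ (by omega)
        _ = (6 * n)^(k+2) := by ring
    have hlog1 : Real.log (2 * N) ≤ (k + 2) * Real.log (6 * n) := by
      have a1 : (2 * (N:ℝ)) ≤ (6 * (n:ℝ))^(k+2) := by exact_mod_cast h2N
      have a2 := Real.log_le_log hN0 a1
      rw [Real.log_pow] at a2
      push_cast at a2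
      exact a2
    have hlog2 : Real.log (6 * n) ≤ 2 * (1 + Real.log n) := by
      rw [Real.log_mul (by norm_num) (by linarith)]
      have h6' : Real.log 6 ≤ 2 := by
        rw [Real.log_le_iff_le_exp (by norm_num)]
        have : (2.7:ℝ) < Real.exp 1 := by linarith [Real.exp_one_gt_d9]
        have h7 : Real.exp 2 = Real.exp 1 * Real.exp 1 := by rw [← Real.exp_add]; norm_num
        rw [h7]; nlinarith
      linarith
    have hlog0 : 0 ≤ Real.log (6 * n) := Real.log_nonneg (by linarith)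
    have h3 : Real.log (2 * N) / k ≤ 9 * (1 + Real.log n) := by
      rw [div_le_iff₀ (by linarith)]
      have : (k + 2 : ℝ) * Real.log (6 * n) ≤ (3 * k) * Real.log (6 * n) :=
        mul_le_mul_of_nonneg_right (by linarith) hlog0
      nlinarith
    have h4 := Real.sqrt_le_sqrt h3
    rw [show (9:ℝ) = 3^2 by norm_num, Real.sqrt_mul (by norm_num), Real.sqrt_sq (by norm_num)] at h4
    nlinarith

end Pool.Agent.H60.CohG
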